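import Pool.Agent.H24.PG.Inner

namespace Pool.Agent.H24.PG

variable {G : Type*} [Group G]

open Subgroup
open scoped commutatorElement IsMulCommutative

/-- class at most two -/
def Cls2 (G : Type*) [Group G] : Prop := ∀ a b : G, ⁅a, b⁆ ∈ center G

theorem cls2_of_le (h : commutator G ≤ center G) : Cls2 G := by
  intro a b
  apply h
  exact commutator_mem_commutator (mem_top a) (mem_top b)

/-- the commutator with a fixed second entry -/
def cl (hZ : Cls2 G) (c : G) : G →* center G where
  toFun a := ⟨⁅a, c⁆, hZ a c⟩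
  map_one' := Subtype.ext (by simp)
  map_mul' a b := by
    apply Subtype.ext
    change ⁅a * b, c⁆ = ⁅a, c⁆ * ⁅b, c⁆
    have h := mem_center_iff.1 (hZ b c) a
    calc ⁅a * b, c⁆ = a * ⁅b, c⁆ * (c * a⁻¹ * c⁻¹) := by
          simp only [commutatorElement_def]; group
      _ = ⁅b, c⁆ * a * (c * a⁻¹ * c⁻¹) := by rw [h]
      _ = ⁅b, c⁆ * ⁅a, c⁆ := by simp only [commutatorElement_def]; group
      _ = ⁅a, c⁆ * ⁅b, c⁆ := by rw [← mem_center_iff.1 (hZ b c) ⁅a, c⁆]

/-- the commutator with a fixed first entry -/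
def cr (hZ : Cls2 G) (a : G) : G →* center G where
  toFun b := ⟨⁅a, b⁆, hZ a b⟩
  map_one' := Subtype.ext (by simp)
  map_mul' b c := by
    apply Subtype.ext
    change ⁅a, b * c⁆ = ⁅a, b⁆ * ⁅a, c⁆
    have h := mem_center_iff.1 (hZ a c) b
    calc ⁅a, b * c⁆ = ⁅a, b⁆ * (b * ⁅a, c⁆ * b⁻¹) := by
          simp only [commutatorElement_def]; group
      _ = ⁅a, b⁆ * (⁅a, c⁆ * b * b⁻¹) := by rw [h]
      _ = _ := by group

theorem cl_apply (hZ : Cls2 G) (a c : G) : (cl hZ c a : G) = ⁅a, c⁆ := rfl

theorem cr_apply (hZ : Cls2 G) (a c : G) : (cr hZ a c : G) = ⁅a, c⁆ := rfl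

/-- The values ⁅h, w⁆ form a subgroup. -/
theorem cl_range (hZ : Cls2 G) (w : G) (z : center G) :
    z ∈ (cl hZ w).range ↔ ∃ h : G, (z : G) = ⁅h, w⁆ := by
  constructor
  · rintro ⟨h, rfl⟩
    exact ⟨h, rfl⟩
  · rintro ⟨h, hh⟩
    exact ⟨h, Subtype.ext hh.symm⟩

/-- the quotient by the centre is commutative -/
theorem icq (hZ : Cls2 G) : IsMulCommutative (G ⧸ center G) := by
  refine ⟨⟨fun a b => ?_⟩⟩
  induction a using QuotientGroup.induction_on with
  | H a =>
  induction b using QuotientGroup.induction_on with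
  | H b =>
  rw [← QuotientGroup.mk_mul, ← QuotientGroup.mk_mul, QuotientGroup.eq]
  have h := hZ b⁻¹ a⁻¹
  have : (a * b)⁻¹ * (b * a) = ⁅b⁻¹, a⁻¹⁆ := by
    simp only [commutatorElement_def]; group
  rw [this]
  exact h

/-- The product of the powers. -/
def wd {d : ℕ} (x : Fin d → G) (a : Fin d → ℤ) : G := (List.ofFn fun i => x i ^ a i).prod

theorem map_wd {H : Type*} [CommGroup H] {d : ℕ} (f : G →* H) (x : Fin d → G) (a : Fin d → ℤ) :
    f (wd x a) = ∏ i, f (x i) ^ a i := by
  unfold wd
  rw [map_list_prod, List.map_ofFn, List.prod_ofFn]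
  apply Finset.prod_congr rfl
  intro i _
  simp

/-- The condition of the class two criterion. -/
def Crit {d : ℕ} (x : Fin d → G) : Prop :=
  ∀ (a : Fin d → ℤ) (j : Fin d) (g : G), ∃ h : G, ⁅g, x j ^ a j⁆ = ⁅h, wd x a⁆

theorem crit_of_extends (hZ : Cls2 G) {d : ℕ} {x : Fin d → G} (hE : Extends x) : Crit x := by
  classical
  intro a j g
  obtain ⟨α, hα, h1⟩ := hE (Function.update x j (g * x j * g⁻¹)) (by
    intro i
    by_cases hi : i = j
    · subst hi
      rw [Function.update_self, isConj_iff]
      exact ⟨g, rfl⟩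
    · rw [Function.update_of_ne hi])
  have hz : ∀ y : G, α y * y⁻¹ ∈ center G := by
    intro y
    obtain ⟨c, hc⟩ := isConj_iff.1 (hα y)
    rw [← hc]
    have := hZ c y
    rwa [commutatorElement_def] at this
  let z : G →* center G :=
    { toFun := fun y => ⟨α y * y⁻¹, hz y⟩
      map_one' := Subtype.ext (by simp)
      map_mul' := by
        intro b c
        apply Subtype.ext
        change α (b * c) * (b * c)⁻¹ = (α b * b⁻¹) * (α c * c⁻¹)
        have h2 := mem_center_iff.1 (hz c) b⁻¹
        rw [map_mul]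
        calc α b * α c * (b * c)⁻¹ = α b * ((α c * c⁻¹) * b⁻¹) := by group
          _ = α b * (b⁻¹ * (α c * c⁻¹)) := by rw [h2]
          _ = _ := by group }
  have hzv : ∀ y, (z y : G) = α y * y⁻¹ := fun y => rfl
  have hzw := map_wd z x a
  have hprod : ∏ i, z (x i) ^ a i = z (x j) ^ a j := by
    apply Finset.prod_eq_single j
    · intro i _ hi
      have : z (x i) = 1 := by
        apply Subtype.ext
        rw [hzv, h1, Function.update_of_ne hi]
        simp
      rw [this, one_zpow]
    · intro h
      exact absurd (Finset.mem_univ j) h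
  obtain ⟨c, hc⟩ := isConj_iff.1 (hα (wd x a))
  refine ⟨c, ?_⟩
  have e1 : (z (wd x a) : G) = ⁅c, wd x a⁆ := by
    rw [hzv, ← hc, commutatorElement_def]
  have e2 : (z (x j) : G) = ⁅g, x j⁆ := by
    rw [hzv, h1, Function.update_self, commutatorElement_def]
  rw [← e1, hzw, hprod]
  have e3 : z (x j) = cr hZ g (x j) := Subtype.ext e2
  rw [e3, ← map_zpow]
  rfl

theorem extends_of_crit [Finite G] (hZ : Cls2 G) {d : ℕ} {x : Fin d → G}
    (hx : closure (Set.range x) = ⊤) (hC : Crit x) : Extends x := by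
  classical
  have : IsMulCommutative (G ⧸ center G) := icq hZ
  intro y hy
  choose g hg using fun i => isConj_iff.1 (hy i)
  let q : G →* G ⧸ center G := QuotientGroup.mk' (center G)
  let π : Multiplicative (Fin d → ℤ) →* G ⧸ center G :=
    { toFun := fun a => ∏ i, q (x i) ^ (Multiplicative.toAdd a i)
      map_one' := by simp
      map_mul' := by
        intro a b
        rw [← Finset.prod_mul_distrib]
        apply Finset.prod_congr rfl
        intro i _
        rw [← zpow_add]
        rfl }
  let ψ : Multiplicative (Fin d → ℤ) →* center G :=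
    { toFun := fun a => ∏ i, (cr hZ (g i) (x i)) ^ (Multiplicative.toAdd a i)
      map_one' := by simp
      map_mul' := by
        intro a b
        rw [← Finset.prod_mul_distrib]
        apply Finset.prod_congr rfl
        intro i _
        rw [← zpow_add]
        rfl }
  have hπ : ∀ a : Fin d → ℤ, π (Multiplicative.ofAdd a) = q (wd x a) := by
    intro a
    rw [map_wd]
    rfl
  have hψ : ∀ a : Fin d → ℤ, ψ (Multiplicative.ofAdd a) = ∏ i, cr hZ (g i) (x i ^ a i) := by
    intro a
    change ∏ i, (cr hZ (g i) (x i)) ^ (a i) = _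
    apply Finset.prod_congr rfl
    intro i _
    rw [map_zpow]
  have hsurj : Function.Surjective π := by
    rw [← MonoidHom.range_eq_top, eq_top_iff]
    have h1 : (⊤ : Subgroup (G ⧸ center G)) = (closure (Set.range x)).map q := by
      rw [hx, ← MonoidHom.range_eq_map, eq_comm, MonoidHom.range_eq_top]
      exact QuotientGroup.mk'_surjective _
    rw [h1, MonoidHom.map_closure, closure_le]
    rintro _ ⟨_, ⟨i, rfl⟩, rfl⟩
    refine ⟨Multiplicative.ofAdd (Pi.single i 1), ?_⟩
    change ∏ k, q (x k) ^ ((Pi.single i 1 : Fin d → ℤ) k) = q (x i)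
    rw [Finset.prod_eq_single i]
    · simp
    · intro k _ hk
      simp [Pi.single_eq_of_ne hk]
    · intro h
      exact absurd (Finset.mem_univ i) h
  -- values of ψ are commutators with the word
  have hval : ∀ a : Fin d → ℤ, ψ (Multiplicative.ofAdd a) ∈ (cl hZ (wd x a)).range := by
    intro a
    rw [hψ]
    apply Subgroup.prod_mem
    intro i _
    rw [cl_range]
    obtain ⟨h, hh⟩ := hC a i (g i)
    exact ⟨h, hh⟩
  have hker : π.ker ≤ ψ.ker := by
    intro a ha
    rw [MonoidHom.mem_ker] at ha ⊢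
    have hz := hval (Multiplicative.toAdd a)
    rw [cl_range] at hz
    obtain ⟨h, hh⟩ := hz
    have hw : wd x (Multiplicative.toAdd a) ∈ center G := by
      have := hπ (Multiplicative.toAdd a)
      rw [ofAdd_toAdd, ha] at this
      exact (QuotientGroup.eq_one_iff _).1 this.symm
    apply Subtype.ext
    rw [ofAdd_toAdd] at hh
    rw [hh, commutatorElement_def]
    have h2 := mem_center_iff.1 hw h
    rw [h2]
    simp
  let ζ : G ⧸ center G →* center G := MonoidHom.liftOfSurjective π hsurj ⟨ψ, hker⟩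
  have hζ : ∀ p, ζ (π p) = ψ p := by
    intro p
    exact MonoidHom.liftOfRightInverse_comp_apply _ _ _ ⟨ψ, hker⟩ p
  let f : G →* G :=
    { toFun := fun w => (ζ (q w) : G) * w
      map_one' := by simp
      map_mul' := by
        intro b c
        have h2 := mem_center_iff.1 (ζ (q c)).2 b
        rw [map_mul, map_mul]
        change ((ζ (q b) : G) * (ζ (q c) : G)) * (b * c) = _
        calc ((ζ (q b) : G) * (ζ (q c) : G)) * (b * c) = (ζ (q b) : G) * ((ζ (q c) : G) * b) * c := by
              group
          _ = (ζ (q b) : G) * (b * (ζ (q c) : G)) * c := by rw [h2]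
          _ = _ := by group }
  have hf : ∀ w, f w = (ζ (q w) : G) * w := fun w => rfl
  obtain ⟨α, hα, hα1⟩ := exists_aut f (by
    intro w
    obtain ⟨p, hp⟩ := hsurj (q w)
    have e1 : ζ (q w) = ψ p := by rw [← hp, hζ]
    have h3 := hval (Multiplicative.toAdd p)
    rw [cl_range, ofAdd_toAdd] at h3
    obtain ⟨h, hh⟩ := h3
    -- w and the word differ by a central element
    have h4 : q (wd x (Multiplicative.toAdd p)) = q w := by
      rw [← hπ, ofAdd_toAdd, hp]
    have h5 : (wd x (Multiplicative.toAdd p))⁻¹ * w ∈ center G := QuotientGroup.eq.1 h4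
    have h6 : ⁅h, wd x (Multiplicative.toAdd p)⁆ = ⁅h, w⁆ := by
      set v := wd x (Multiplicative.toAdd p) with hv
      have h7 : w = v * (v⁻¹ * w) := by group
      have h8 : cr hZ h w = cr hZ h v := by
        rw [h7, map_mul]
        have : cr hZ h (v⁻¹ * w) = 1 := by
          apply Subtype.ext
          rw [cr_apply, commutatorElement_def]
          rw [mem_center_iff.1 h5 h]
          simp
        rw [this, mul_one]
      exact (congrArg Subtype.val h8).symm
    rw [isConj_iff]
    refine ⟨h, ?_⟩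
    rw [hf, e1, hh, h6, commutatorElement_def]
    group)
  refine ⟨α, hα, fun i => ?_⟩
  rw [hα1, hf]
  have e1 : q (x i) = π (Multiplicative.ofAdd (Pi.single i 1)) := by
    change q (x i) = ∏ k, q (x k) ^ ((Pi.single i 1 : Fin d → ℤ) k)
    rw [Finset.prod_eq_single i]
    · simp
    · intro k _ hk
      simp [Pi.single_eq_of_ne hk]
    · intro h
      exact absurd (Finset.mem_univ i) h
  have e2 : ψ (Multiplicative.ofAdd (Pi.single i 1)) = cr hZ (g i) (x i) := by
    change ∏ k, (cr hZ (g k) (x k)) ^ ((Pi.single i 1 : Fin d → ℤ) k) = _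
    rw [Finset.prod_eq_single i]
    · simp
    · intro k _ hk
      simp [Pi.single_eq_of_ne hk]
    · intro h
      exact absurd (Finset.mem_univ i) h
  rw [e1, hζ, e2, cr_apply, commutatorElement_def, ← hg i]
  group

/-- The class two criterion. -/
theorem extends_iff_crit [Finite G] (hZ : Cls2 G) {d : ℕ} {x : Fin d → G}
    (hx : closure (Set.range x) = ⊤) : Extends x ↔ Crit x :=
  ⟨crit_of_extends hZ, extends_of_crit hZ hx⟩

end Pool.Agent.H24.PG
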