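import Pool.Agent.H24.PG.Inner

namespace Pool.Agent.H24.PG

variable {G : Type*} [Group G]

open Subgroup

section key

variable (A H : Subgroup G) (s : G)

/-- commutators of s with elements of A in H -/
def Dl (z : G) : Prop := ∃ y, y ∈ A ∧ y ∈ H ∧ z = s * y * s⁻¹ * y⁻¹

variable {A H s}

theorem Dl.mul (hA : ∀ a ∈ A, ∀ b ∈ A, a * b = b * a) (hN : A.Normal) {z w : G} (hz : Dl A H s z)
    (hw : Dl A H s w) : Dl A H s (z * w) := by
  obtain ⟨y, hy, hyH, rfl⟩ := hz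
  obtain ⟨y', hy', hyH', rfl⟩ := hw
  refine ⟨y * y', A.mul_mem hy hy', H.mul_mem hyH hyH', ?_⟩
  have h1 := hA y⁻¹ (A.inv_mem hy) ((s * y' * s⁻¹) * y'⁻¹)
    (A.mul_mem (hN.conj_mem y' hy' s) (A.inv_mem hy'))
  calc s * y * s⁻¹ * y⁻¹ * (s * y' * s⁻¹ * y'⁻¹)
      = (s * y * s⁻¹) * (y⁻¹ * ((s * y' * s⁻¹) * y'⁻¹)) := by group
    _ = (s * y * s⁻¹) * (((s * y' * s⁻¹) * y'⁻¹) * y⁻¹) := by rw [h1]
    _ = _ := by group

theorem Dl.conj (hN : A.Normal) (hs : s ∈ H) {z : G} (hz : Dl A H s z) :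
    Dl A H s (s * z * s⁻¹) := by
  obtain ⟨y, hy, hyH, rfl⟩ := hz
  refine ⟨s * y * s⁻¹, hN.conj_mem y hy s, H.mul_mem (H.mul_mem hs hyH) (H.inv_mem hs), ?_⟩
  group

theorem Dl.conj_pow (hN : A.Normal) (hs : s ∈ H) {z : G} (hz : Dl A H s z) (n : ℕ) :
    Dl A H s (s ^ n * z * (s ^ n)⁻¹) := by
  induction n with
  | zero => simpa using hz
  | succ n ih =>
    have := Dl.conj hN hs ih
    convert this using 1
    rw [pow_succ']
    group

theorem Dl.inv (hA : ∀ a ∈ A, ∀ b ∈ A, a * b = b * a) (hN : A.Normal) {z : G}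
    (hz : Dl A H s z) : Dl A H s z⁻¹ := by
  obtain ⟨y, hy, hyH, rfl⟩ := hz
  refine ⟨y⁻¹, A.inv_mem hy, H.inv_mem hyH, ?_⟩
  have h1 := hA y hy (s * y⁻¹ * s⁻¹) (hN.conj_mem _ (A.inv_mem hy) s)
  calc (s * y * s⁻¹ * y⁻¹)⁻¹ = y * (s * y⁻¹ * s⁻¹) := by group
    _ = (s * y⁻¹ * s⁻¹) * y := h1
    _ = _ := by group

theorem conj_pow_mem (hN : A.Normal) {y : G} (hy : y ∈ A) (n : ℕ) :
    s ^ n * y * (s ^ n)⁻¹ ∈ A := hN.conj_mem y hy _

theorem dl_pow (hA : ∀ a ∈ A, ∀ b ∈ A, a * b = b * a) (hN : A.Normal) (hs : s ∈ H) {y : G}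
    (hy : y ∈ A) (hyH : y ∈ H) (n : ℕ) : Dl A H s (s ^ n * y * (s ^ n)⁻¹ * y⁻¹) := by
  induction n with
  | zero =>
    refine ⟨1, A.one_mem, H.one_mem, ?_⟩
    simp
  | succ n ih =>
    have h1 : Dl A H s (s * (s ^ n * y * (s ^ n)⁻¹) * s⁻¹ * (s ^ n * y * (s ^ n)⁻¹)⁻¹) :=
      ⟨s ^ n * y * (s ^ n)⁻¹, hN.conj_mem y hy _,
        H.mul_mem (H.mul_mem (H.pow_mem hs n) hyH) (H.inv_mem (H.pow_mem hs n)), rfl⟩
    have h2 := h1.mul hA hN ih
    convert h2 using 1
    rw [pow_succ']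
    group

theorem dl_mul_pow (hA : ∀ a ∈ A, ∀ b ∈ A, a * b = b * a) (hN : A.Normal) (hs : s ∈ H) {c : G}
    {n : ℕ} (h : Dl A H s (s ^ n * c * (s ^ n)⁻¹ * c⁻¹)) (l : ℕ) :
    Dl A H s ((s ^ n) ^ l * c * ((s ^ n) ^ l)⁻¹ * c⁻¹) := by
  induction l with
  | zero =>
    refine ⟨1, A.one_mem, H.one_mem, ?_⟩
    simp
  | succ l ih =>
    have h2 := (Dl.conj_pow hN hs ih n).mul hA hN h
    convert h2 using 1
    rw [pow_succ' (s ^ n) l]
    group

theorem mem_of_dl (hA : ∀ a ∈ A, ∀ b ∈ A, a * b = b * a) (hN : A.Normal) (hs : s ∈ H)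
    (hZ : center G ≤ H) (hgen : ∀ g : G, ∃ n : ℤ, ∃ a ∈ A, g = s ^ n * a) {c : G} (hc : c ∈ A)
    {n : ℕ} (hn : n.Coprime (orderOf s)) (h : Dl A H s (s ^ n * c * (s ^ n)⁻¹ * c⁻¹)) : c ∈ H := by
  obtain ⟨l, hl⟩ := exists_pow_eq_self_of_coprime hn
  have h1 := dl_mul_pow hA hN hs h l
  rw [hl] at h1
  obtain ⟨e, he, heH, h2⟩ := h1
  have h3 : s * (e⁻¹ * c) * s⁻¹ = e⁻¹ * c := by
    have h4 : s * c * s⁻¹ = s * e * s⁻¹ * e⁻¹ * c := by
      rw [← h2]; group
    calc s * (e⁻¹ * c) * s⁻¹ = (s * e⁻¹ * s⁻¹) * (s * c * s⁻¹) := by group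
      _ = (s * e⁻¹ * s⁻¹) * (s * e * s⁻¹ * e⁻¹ * c) := by rw [h4]
      _ = _ := by group
  have h5 : e⁻¹ * c ∈ A := A.mul_mem (A.inv_mem he) hc
  have h6 : s * (e⁻¹ * c) = (e⁻¹ * c) * s := by
    calc s * (e⁻¹ * c) = (s * (e⁻¹ * c) * s⁻¹) * s := by group
      _ = _ := by rw [h3]
  have h7 : e⁻¹ * c ∈ center G := by
    rw [mem_center_iff]
    intro g
    obtain ⟨m, a, ha, rfl⟩ := hgen g
    have h8 : Commute (s ^ m) (e⁻¹ * c) := Commute.zpow_left h6 m
    calc s ^ m * a * (e⁻¹ * c) = s ^ m * (a * (e⁻¹ * c)) := by group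
      _ = s ^ m * ((e⁻¹ * c) * a) := by rw [hA a ha _ h5]
      _ = (s ^ m * (e⁻¹ * c)) * a := by group
      _ = ((e⁻¹ * c) * s ^ m) * a := by rw [h8.eq]
      _ = _ := by group
  have : c = e * (e⁻¹ * c) := by group
  rw [this]
  exact H.mul_mem heH (hZ h7)

end key

/-- the subgroup generated by s, y and the centre -/
def Hs (s y : G) : Subgroup G := closure {s, y} ⊔ center G

theorem s_mem_Hs (s y : G) : s ∈ Hs s y :=
  mem_sup_left (subset_closure (Or.inl rfl))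

theorem y_mem_Hs (s y : G) : y ∈ Hs s y :=
  mem_sup_left (subset_closure (Or.inr rfl))

theorem center_le_Hs (s y : G) : center G ≤ Hs s y := le_sup_right

theorem Hs_le {s y : G} {H : Subgroup G} (hs : s ∈ H) (hy : y ∈ H) (hZ : center G ≤ H) :
    Hs s y ≤ H := by
  apply sup_le _ hZ
  rw [closure_le]
  rintro g (rfl | rfl)
  · exact hs
  · exact hy

theorem key_lemma {p : ℕ} [Fact p.Prime] [Finite G] (hG : IsPGroup p G) {A : Subgroup G}
    (hA : ∀ a ∈ A, ∀ b ∈ A, a * b = b * a) (hN : A.Normal) {s : G}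
    (hgen : ∀ g : G, ∃ n : ℤ, ∃ a ∈ A, g = s ^ n * a) {b c : G} (hb : b ∈ A) (hc : c ∈ A)
    (g : G) (h : s * b * s⁻¹ * c = g * (b * c) * g⁻¹) :
    Hs s b ≤ Hs s c ∨ Hs s c ≤ Hs s b := by
  have hp : p.Prime := Fact.out
  obtain ⟨k, a, ha, rfl⟩ := hgen g
  -- replace the exponent by a positive one
  obtain ⟨n0, hn0⟩ : ∃ n0 : ℕ, s ^ n0 = s ^ k := by
    have : s ^ k ∈ zpowers s := ⟨k, rfl⟩
    rw [← mem_powers_iff_mem_zpowers] at this
    exact this
  have hpos : 0 < orderOf s := orderOf_pos s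
  obtain ⟨n, hn⟩ : ∃ n : ℕ, n0 + orderOf s = n + 1 := ⟨n0 + orderOf s - 1, by omega⟩
  have hk : s ^ k = s ^ (n + 1) := by
    rw [← hn, pow_add, pow_orderOf_eq_one, mul_one, hn0]
  have hbc : b * c ∈ A := A.mul_mem hb hc
  have h1 : s * b * s⁻¹ * c = s ^ (n + 1) * (b * c) * (s ^ (n + 1))⁻¹ := by
    rw [h, hk]
    have h2 := hA a ha _ hbc
    calc s ^ (n + 1) * a * (b * c) * (s ^ (n + 1) * a)⁻¹
        = s ^ (n + 1) * (a * (b * c)) * a⁻¹ * (s ^ (n + 1))⁻¹ := by group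
      _ = s ^ (n + 1) * ((b * c) * a) * a⁻¹ * (s ^ (n + 1))⁻¹ := by rw [h2]
      _ = _ := by group
  set b' := s * b * s⁻¹ with hb'
  have hb'A : b' ∈ A := hN.conj_mem b hb s
  set X := s ^ n * b' * (s ^ n)⁻¹ with hX
  have hXA : X ∈ A := hN.conj_mem _ hb'A _
  set Y := s ^ (n + 1) * c * (s ^ (n + 1))⁻¹ with hY
  have hYA : Y ∈ A := hN.conj_mem _ hc _
  have h3 : b' * c = X * Y := by
    rw [h1, hX, hY, hb', pow_succ]
    group
  have h4 : Y * c⁻¹ = (X * b'⁻¹)⁻¹ := by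
    have e1 : Y = X⁻¹ * (b' * c) := by rw [h3]; group
    rw [e1]
    have e2 := hA X⁻¹ (A.inv_mem hXA) b' hb'A
    calc X⁻¹ * (b' * c) * c⁻¹ = X⁻¹ * b' := by group
      _ = b' * X⁻¹ := e2
      _ = _ := by group
  have h5 : X * b'⁻¹ = (Y * c⁻¹)⁻¹ := by rw [h4]; group
  obtain ⟨e, he⟩ := (IsPGroup.iff_orderOf.1 hG) s
  have hcop : ∀ m : ℕ, ¬ p ∣ m → m.Coprime (orderOf s) := by
    intro m hm
    rw [he]
    exact Nat.Coprime.pow_right e ((Nat.Prime.coprime_iff_not_dvd hp).2 hm).symm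
  by_cases hdiv : p ∣ n + 1
  · -- then p does not divide n
    left
    have hnd : ¬ p ∣ n := by
      intro h6
      have := (Nat.dvd_add_right h6).1 hdiv
      exact hp.one_lt.ne' (Nat.dvd_one.1 this)
    have h6 : Dl A (Hs s c) s (Y * c⁻¹) := dl_pow hA hN (s_mem_Hs s c) hc (y_mem_Hs s c) (n + 1)
    have h7 : Dl A (Hs s c) s (s ^ n * b' * (s ^ n)⁻¹ * b'⁻¹) := by
      have := h6.inv hA hN
      rw [← h5] at this
      exact this
    have h8 := mem_of_dl hA hN (s_mem_Hs s c) (center_le_Hs s c) hgen hb'A (hcop n hnd) h7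
    apply Hs_le (s_mem_Hs s c) _ (center_le_Hs s c)
    have : b = s⁻¹ * b' * s := by rw [hb']; group
    rw [this]
    exact mul_mem (mul_mem (inv_mem (s_mem_Hs s c)) h8) (s_mem_Hs s c)
  · right
    have hb'H : b' ∈ Hs s b :=
      mul_mem (mul_mem (s_mem_Hs s b) (y_mem_Hs s b)) (inv_mem (s_mem_Hs s b))
    have h6 : Dl A (Hs s b) s (X * b'⁻¹) := dl_pow hA hN (s_mem_Hs s b) hb'A hb'H n
    have h7 : Dl A (Hs s b) s (s ^ (n + 1) * c * (s ^ (n + 1))⁻¹ * c⁻¹) := by
      have := h6.inv hA hN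
      rw [← h4] at this
      exact this
    have h8 := mem_of_dl hA hN (s_mem_Hs s b) (center_le_Hs s b) hgen hc (hcop _ hdiv) h7
    exact Hs_le (s_mem_Hs s b) h8 (center_le_Hs s b)

/-- an element of a generating set which generates the cyclic quotient -/
theorem exists_gen {p : ℕ} [Fact p.Prime] [Finite G] (hG : IsPGroup p G) (A : Subgroup G)
    [hN : A.Normal] (hcyc : IsCyclic (G ⧸ A)) (S : Set G) (hS : closure S = ⊤) :
    A = ⊤ ∨ ∃ s ∈ S, ∀ g : G, ∃ n : ℤ, ∃ a ∈ A, g = s ^ n * a := by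
  have hp : p.Prime := Fact.out
  by_cases hAt : A = ⊤
  · exact Or.inl hAt
  right
  obtain ⟨t, ht⟩ := hcyc.exists_generator
  have hq : IsPGroup p (G ⧸ A) := hG.to_quotient A
  obtain ⟨e, he⟩ := (IsPGroup.iff_orderOf.1 hq) t
  by_contra hcon
  push Not at hcon
  -- all elements of S are p-th powers mod A
  have h1 : ∀ s ∈ S, (s : G ⧸ A) ∈ zpowers (t ^ p) := by
    intro s hs
    by_contra hns
    obtain ⟨m, hm⟩ := ht (s : G ⧸ A)
    simp only at hm
    have hpm : ¬ (p : ℤ) ∣ m := by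
      rintro ⟨k, rfl⟩
      apply hns
      refine ⟨k, ?_⟩
      simp only
      rw [← hm, zpow_mul, zpow_natCast]
    -- Bezout
    have hcop : IsCoprime m (orderOf t : ℤ) := by
      rw [he]
      push_cast
      apply IsCoprime.pow_right
      exact (((Nat.prime_iff_prime_int.1 hp).coprime_iff_not_dvd).2 hpm).symm
    obtain ⟨u, v, huv⟩ := hcop
    have h2 : (s : G ⧸ A) ^ u = t := by
      rw [← hm, ← zpow_mul]
      have : m * u = 1 - v * (orderOf t : ℤ) := by linarith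
      rw [this, zpow_sub, zpow_one, mul_comm v, zpow_mul, zpow_natCast, pow_orderOf_eq_one,
        one_zpow, inv_one, mul_one]
    obtain ⟨g, hg⟩ := hcon s hs
    obtain ⟨m', hm'⟩ := ht (g : G ⧸ A)
    simp only at hm'
    apply hg (u * m') ((s ^ (u * m'))⁻¹ * g)
    · rw [← QuotientGroup.eq, QuotientGroup.mk_zpow, zpow_mul, h2, hm']
    · group
  have h2 : zpowers (t ^ p) = ⊤ := by
    have h3 : closure S ≤ (zpowers (t ^ p)).comap (QuotientGroup.mk' A) := by
      rw [closure_le]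
      intro s hs
      exact h1 s hs
    rw [hS] at h3
    rw [eq_top_iff]
    intro y _
    obtain ⟨g, rfl⟩ := QuotientGroup.mk'_surjective A y
    exact h3 (mem_top g)
  -- so t is trivial
  have h3 : t ∈ zpowers (t ^ p) := by rw [h2]; exact mem_top t
  obtain ⟨k, hk⟩ := h3
  simp only at hk
  have h4 : t ^ ((p : ℤ) * k - 1) = 1 := by
    rw [zpow_sub, zpow_mul, zpow_natCast, hk, zpow_one, mul_inv_cancel]
  have h5 : (orderOf t : ℤ) ∣ (p : ℤ) * k - 1 := orderOf_dvd_iff_zpow_eq_one.2 h4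
  have h6 : e = 0 := by
    by_contra he0
    have h7 : (p : ℤ) ∣ (orderOf t : ℤ) := by
      rw [he]
      push_cast
      exact dvd_pow_self _ he0
    have h8 := dvd_trans h7 h5
    have h9 : (p : ℤ) ∣ 1 := by
      have := dvd_sub (dvd_mul_right (p : ℤ) k) h8
      simpa using this
    have := Int.natAbs_dvd_natAbs.2 h9
    simp at this
    exact hp.one_lt.ne' this
  have h7 : t = 1 := by
    rw [h6, pow_zero] at he
    exact orderOf_eq_one_iff.1 he
  apply hAt
  rw [eq_top_iff]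
  intro g _
  obtain ⟨m, hm⟩ := ht (g : G ⧸ A)
  simp only at hm
  rw [h7, one_zpow] at hm
  exact (QuotientGroup.eq_one_iff g).1 hm.symm

theorem two_gen_of_comm (h : ∀ a b : G, a * b = b * a) :
    ∃ u v : G, closure {u, v} ⊔ center G = ⊤ := by
  refine ⟨1, 1, ?_⟩
  rw [eq_top_iff]
  intro g _
  apply mem_sup_right
  rw [mem_center_iff]
  intro k
  exact h k g

/-- Necessity. -/
theorem two_gen_of_attains {p : ℕ} [Fact p.Prime] [Finite G] (hG : IsPGroup p G) (A : Subgroup G)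
    [hN : A.Normal] (hA : ∀ a ∈ A, ∀ b ∈ A, a * b = b * a) (hcyc : IsCyclic (G ⧸ A))
    (h : Attains G) : ∃ u v : G, closure {u, v} ⊔ center G = ⊤ := by
  classical
  obtain ⟨d, x, hx, hE⟩ := attains_iff.1 h
  rcases exists_gen hG A hcyc (Set.range x) hx with hAt | ⟨s, ⟨i1, rfl⟩, hgen⟩
  · apply two_gen_of_comm
    intro a b
    exact hA a (by rw [hAt]; exact mem_top a) b (by rw [hAt]; exact mem_top b)
  choose m b hb hmb using fun i => hgen (x i)
  set s := x i1 with hs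
  -- comparability
  have hcomp : ∀ i j, i ≠ i1 → j ≠ i1 → Hs s (b i) ≤ Hs s (b j) ∨ Hs s (b j) ≤ Hs s (b i) := by
    intro i j hi hj
    by_cases hij : i = j
    · subst hij
      exact Or.inl le_rfl
    obtain ⟨α, hα, h1⟩ := hE (Function.update x i (s * x i * s⁻¹)) (by
      intro k
      by_cases hk : k = i
      · subst hk
        rw [Function.update_self, isConj_iff]
        exact ⟨s, rfl⟩
      · rw [Function.update_of_ne hk])
    have e1 : α s = s := by
      rw [hs, h1, Function.update_of_ne hi.symm]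
    have e2 : α (b i) = s * b i * s⁻¹ := by
      have : b i = (s ^ m i)⁻¹ * x i := by rw [hmb i]; group
      rw [this, map_mul, map_inv, map_zpow, e1, h1, Function.update_self]
      group
    have e3 : α (b j) = b j := by
      have : b j = (s ^ m j)⁻¹ * x j := by rw [hmb j]; group
      rw [this, map_mul, map_inv, map_zpow, e1, h1, Function.update_of_ne (Ne.symm hij)]
    obtain ⟨g, hg⟩ := isConj_iff.1 (hα (b i * b j))
    rw [map_mul, e2, e3] at hg
    exact key_lemma hG hA hN hgen (hb i) (hb j) g hg.symm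
  by_cases hne : ∃ i, i ≠ i1
  · -- a maximal one
    let F : Finset (Fin d) := Finset.univ.filter (fun i => i ≠ i1)
    have hF : F.Nonempty := by
      obtain ⟨i, hi⟩ := hne
      exact ⟨i, by simp [F, hi]⟩
    obtain ⟨i0, hi0, hmax⟩ := Finset.exists_max_image F (fun i => Nat.card (Hs s (b i))) hF
    have hi01 : i0 ≠ i1 := by simpa [F] using hi0
    have hle : ∀ j, j ≠ i1 → Hs s (b j) ≤ Hs s (b i0) := by
      intro j hj
      rcases hcomp i0 j hi01 hj with h1 | h1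
      · have h2 := hmax j (by simp [F, hj])
        have h3 : Hs s (b i0) = Hs s (b j) := by
          apply Subgroup.eq_of_le_of_card_ge h1 h2
        exact h3.ge
      · exact h1
    refine ⟨s, b i0, ?_⟩
    rw [eq_top_iff, ← hx, closure_le]
    rintro _ ⟨j, rfl⟩
    change x j ∈ Hs s (b i0)
    by_cases hj : j = i1
    · rw [hj]
      exact s_mem_Hs _ _
    · rw [hmb j]
      exact mul_mem (zpow_mem (s_mem_Hs _ _) _) (hle j hj (y_mem_Hs _ _))
  · push Not at hne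
    refine ⟨s, s, ?_⟩
    rw [eq_top_iff, ← hx, closure_le]
    rintro _ ⟨j, rfl⟩
    rw [hne j]
    exact mem_sup_left (subset_closure (Or.inl rfl))

/-- Sufficiency. -/
theorem attains_of_two_gen {p : ℕ} [Fact p.Prime] [Finite G] (hG : IsPGroup p G) (A : Subgroup G)
    [hN : A.Normal] (hA : ∀ a ∈ A, ∀ b ∈ A, a * b = b * a) (hcyc : IsCyclic (G ⧸ A))
    (h : ∃ u v : G, closure {u, v} ⊔ center G = ⊤) : Attains G := by
  obtain ⟨u, v, huv⟩ := h
  -- enlarge A by the centre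
  let B : Subgroup G := A ⊔ center G
  have hB : ∀ b, b ∈ B ↔ ∃ a ∈ A, ∃ z ∈ center G, a * z = b := fun b =>
    Subgroup.mem_sup_of_normal_right
  have hBN : B.Normal := inferInstance
  have hBA : ∀ a ∈ B, ∀ b ∈ B, a * b = b * a := by
    intro a0 ha0 b0 hb0
    obtain ⟨a, ha, z, hz, rfl⟩ := (hB _).1 ha0
    obtain ⟨b, hb, w, hw, rfl⟩ := (hB _).1 hb0
    have h1 := mem_center_iff.1 hz
    have h2 := mem_center_iff.1 hw
    calc a * z * (b * w) = a * (z * b) * w := by group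
      _ = a * (b * z) * w := by rw [← h1 b]
      _ = (a * b) * (z * w) := by group
      _ = (b * a) * (w * z) := by rw [hA a ha b hb, h2 z]
      _ = b * (a * w) * z := by group
      _ = b * (w * a) * z := by rw [h2 a]
      _ = _ := by group
  have hBcyc : IsCyclic (G ⧸ B) := by
    obtain ⟨t, ht⟩ := hcyc.exists_generator
    obtain ⟨t, rfl⟩ := QuotientGroup.mk'_surjective A t
    refine ⟨⟨(t : G ⧸ B), ?_⟩⟩
    intro y
    obtain ⟨g, rfl⟩ := QuotientGroup.mk'_surjective B y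
    obtain ⟨n, hn⟩ := ht (QuotientGroup.mk' A g)
    refine ⟨n, ?_⟩
    simp only [QuotientGroup.mk'_apply] at hn ⊢
    rw [← QuotientGroup.mk_zpow, QuotientGroup.eq] at hn ⊢
    exact mem_sup_left hn
  have hZB : center G ≤ B := le_sup_right
  have hS : closure ({u, v} ∪ (center G : Set G)) = ⊤ := by
    rw [Subgroup.closure_union, Subgroup.closure_eq, huv]
  -- the main argument for a generator of the quotient
  have main : ∀ u v : G, closure {u, v} ⊔ center G = ⊤ →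
      (∀ g : G, ∃ n : ℤ, ∃ a ∈ B, g = u ^ n * a) → Attains G := by
    intro u v huv hgen
    obtain ⟨n, a, ha, hv⟩ := hgen v
    apply attains_of_two u a
    · rw [eq_top_iff, ← huv]
      apply sup_le _ le_sup_right
      rw [closure_le]
      rintro g (rfl | rfl)
      · exact mem_sup_left (subset_closure (Or.inl rfl))
      · apply mem_sup_left
        have h1 : u ∈ closure {u, a} := subset_closure (Or.inl rfl)
        have h2 : a ∈ closure {u, a} := subset_closure (Or.inr rfl)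
        rw [hv]
        exact mul_mem (zpow_mem h1 _) h2
    · intro g
      obtain ⟨m, c, hc, rfl⟩ := hgen g
      refine ⟨u ^ m, c, ?_, hBA c hc a ha, rfl⟩
      exact ((Commute.refl u).zpow_left m).eq
  rcases exists_gen hG B hBcyc _ hS with hAt | ⟨s, hs, hgen⟩
  · apply attains_of_comm
    intro a b
    exact hBA a (by rw [hAt]; exact mem_top a) b (by rw [hAt]; exact mem_top b)
  · rcases hs with (rfl | rfl) | hz
    · exact main _ v huv hgen
    · apply main _ u _ hgen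
      rw [Set.pair_comm]
      exact huv
    · -- the generator is central: the group is abelian
      apply attains_of_comm
      have hall : ∀ g : G, g ∈ B := by
        intro g
        obtain ⟨n, a, ha, rfl⟩ := hgen g
        exact mul_mem (zpow_mem (hZB hz) _) ha
      intro a b
      exact hBA a (hall a) b (hall b)

end Pool.Agent.H24.PG
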