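import Mathlib

namespace Pool.Agent.H24.PG

open Finset

/-- the geometric sum -/
def gs (t n : ℕ) : ℕ := ∑ i ∈ range n, t ^ i

theorem gs_succ (t n : ℕ) : gs t (n + 1) = t * gs t n + 1 := by
  unfold gs
  rw [Finset.sum_range_succ', Finset.mul_sum]
  simp [pow_succ']

theorem gs_add (t m n : ℕ) : gs t (m + n) = gs t m + t ^ m * gs t n := by
  unfold gs
  rw [Finset.sum_range_add, Finset.mul_sum]
  simp [pow_add]

theorem gs_mul (t m n : ℕ) : gs t (m * n) = gs t m * gs (t ^ m) n := by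
  induction n with
  | zero => simp [gs]
  | succ n ih =>
    rw [mul_add, mul_one, gs_add, ih]
    have : gs (t ^ m) (n + 1) = gs (t ^ m) n + (t ^ m) ^ n := by
      unfold gs
      rw [Finset.sum_range_succ]
    rw [this, pow_mul]
    ring

/-- admissible residues -/
def Adm (p t : ℕ) : Prop := t ≡ 1 [MOD p] ∧ (p ≠ 2 ∨ t ≡ 1 [MOD 4])

theorem Adm.pow {p t : ℕ} (h : Adm p t) (m : ℕ) : Adm p (t ^ m) := by
  refine ⟨?_, ?_⟩
  · simpa using h.1.pow m
  · rcases h.2 with h1 | h1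
    · exact Or.inl h1
    · right
      simpa using h1.pow m

theorem gs_prime {p t : ℕ} (hp : p.Prime) (h : Adm p t) : ∃ c, ¬ p ∣ c ∧ gs t p = p * c := by
  have key : ∃ k : ℤ, (gs t p : ℤ) = p + (p : ℤ) ^ 2 * k := by
    by_cases h2 : p = 2
    · subst h2
      rcases h.2 with h1 | h1
      · exact absurd rfl h1
      · have h3 : (4 : ℤ) ∣ t - 1 := (Nat.modEq_iff_dvd.1 h1.symm)
        obtain ⟨k, hk⟩ := h3
        refine ⟨k, ?_⟩
        unfold gs
        simp [Finset.sum_range_succ]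
        linarith
    · have hodd : Odd p := hp.odd_of_ne_two h2
      have h3 : (p : ℤ) ∣ t - 1 := (Nat.modEq_iff_dvd.1 h.1.symm)
      obtain ⟨b, hb⟩ := h3
      have h4 := odd_sq_dvd_geom_sum₂_sub (R := ℤ) (a := 1) (b := b) hodd
      obtain ⟨k, hk⟩ := h4
      refine ⟨k, ?_⟩
      have h5 : (t : ℤ) = 1 + p * b := by linarith
      unfold gs
      push_cast
      rw [h5]
      simp only [one_pow, mul_one] at hk
      linarith
  obtain ⟨k, hk⟩ := key
  have hdvd : p ∣ gs t p := by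
    have : (p : ℤ) ∣ (gs t p : ℤ) := by
      rw [hk]
      exact Dvd.intro (1 + p * k) (by ring)
    exact_mod_cast this
  obtain ⟨c, hc⟩ := hdvd
  refine ⟨c, ?_, hc⟩
  intro hpc
  obtain ⟨e, rfl⟩ := hpc
  rw [hc] at hk
  push_cast at hk
  have hp0 : (p : ℤ) ≠ 0 := by exact_mod_cast hp.ne_zero
  have h1 : (p : ℤ) * e = 1 + p * k := by
    apply mul_left_cancel₀ hp0
    linarith
  have h2 : (p : ℤ) ∣ 1 := ⟨e - k, by linarith⟩
  have h3 : p ∣ 1 := by exact_mod_cast h2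
  exact hp.one_lt.ne' (Nat.dvd_one.1 h3)

theorem gs_prime_pow {p t : ℕ} (hp : p.Prime) (h : Adm p t) (k : ℕ) :
    ∃ c, ¬ p ∣ c ∧ gs t (p ^ k) = p ^ k * c := by
  induction k with
  | zero =>
    refine ⟨1, ?_, ?_⟩
    · intro h1
      exact hp.one_lt.ne' (Nat.dvd_one.1 h1)
    · simp [gs]
  | succ k ih =>
    obtain ⟨c, hc, h1⟩ := ih
    obtain ⟨c', hc', h2⟩ := gs_prime hp (h.pow (p ^ k))
    refine ⟨c * c', ?_, ?_⟩
    · intro h3
      rcases (Nat.Prime.dvd_mul hp).1 h3 with h4 | h4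
      · exact hc h4
      · exact hc' h4
    · rw [pow_succ, gs_mul, h1, h2]
      ring

end Pool.Agent.H24.PG
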