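import Pool.Agent.H24.PG.CycAb
import Pool.Agent.H24.PG.Num

namespace Pool.Agent.H24.PG

open Subgroup
open scoped commutatorElement

section orbit

variable {G : Type*} [Group G]

theorem conj_gs {x y : G} {t : ℕ} (hu : y * ⁅y, x⁆ * y⁻¹ = ⁅y, x⁆ ^ t) (n : ℕ) :
    y ^ n * x * (y ^ n)⁻¹ = ⁅y, x⁆ ^ gs t n * x := by
  induction n with
  | zero => simp [gs]
  | succ n ih =>
    have h1 : y ^ (n + 1) * x * (y ^ (n + 1))⁻¹ = y * (y ^ n * x * (y ^ n)⁻¹) * y⁻¹ := by
      rw [pow_succ']
      group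
    have h2 : y * ⁅y, x⁆ ^ gs t n * y⁻¹ = ⁅y, x⁆ ^ (t * gs t n) := by
      rw [pow_mul, ← hu, conj_pow]
    rw [h1, ih, gs_succ, pow_succ, ← h2]
    simp only [commutatorElement_def]
    group

theorem commute_of_coprime {x y : G} {m : ℕ} (hm : m.Coprime (orderOf y))
    (h : y ^ m * x * (y ^ m)⁻¹ = x) : y * x * y⁻¹ = x := by
  obtain ⟨l, hl⟩ := exists_pow_eq_self_of_coprime hm
  have h1 : Commute (y ^ m) x := by
    change y ^ m * x = x * y ^ m
    calc y ^ m * x = (y ^ m * x * (y ^ m)⁻¹) * y ^ m := by group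
      _ = _ := by rw [h]
  have h2 : Commute y x := by
    rw [← hl]
    exact h1.pow_left l
  rw [h2.eq]
  group

theorem orb {p : ℕ} [Fact p.Prime] [Finite G] (hG : IsPGroup p G) {x y : G} {t : ℕ}
    (ht : Adm p t) (hu : y * ⁅y, x⁆ * y⁻¹ = ⁅y, x⁆ ^ t) {z : G} (hz : z ∈ zpowers ⁅y, x⁆) :
    ∃ n : ℕ, y ^ n * x * (y ^ n)⁻¹ = z * x := by
  have hp : p.Prime := Fact.out
  obtain ⟨e, he⟩ := (IsPGroup.iff_orderOf.1 hG) ⁅y, x⁆
  set u := ⁅y, x⁆ with hudef
  have hcop : t.Coprime (p ^ e) := by
    apply Nat.Coprime.pow_right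
    rw [Nat.coprime_comm, Nat.Prime.coprime_iff_not_dvd hp]
    intro h1
    have h2 := (Nat.modEq_iff_dvd' (n := p) (Nat.zero_le 1))
    have h3 : 1 ≡ 0 [MOD p] := ht.1.symm.trans ((Nat.modEq_zero_iff_dvd).2 h1)
    exact hp.one_lt.ne' (Nat.dvd_one.1 ((Nat.modEq_zero_iff_dvd).1 h3))
  have hpos : 0 < p ^ e := pow_pos hp.pos e
  -- the key non divisibility
  have hkey : ∀ r : ℕ, 0 < r → r < p ^ e → ¬ p ^ e ∣ gs t r := by
    intro r hr0 hr h1
    obtain ⟨k, r', hr', hrr⟩ := Nat.exists_eq_pow_mul_and_not_dvd hr0.ne' p hp.ne_one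
    have h2 : y ^ r * x * (y ^ r)⁻¹ = x := by
      rw [conj_gs hu, ← hudef]
      have : u ^ gs t r = 1 := by
        rw [← orderOf_dvd_iff_pow_eq_one, he]
        exact h1
      rw [this, one_mul]
    obtain ⟨f, hf⟩ := (IsPGroup.iff_orderOf.1 hG) (y ^ p ^ k)
    have h3 : r'.Coprime (orderOf (y ^ p ^ k)) := by
      rw [hf]
      exact Nat.Coprime.pow_right f ((Nat.Prime.coprime_iff_not_dvd hp).2 hr').symm
    have h4 : y ^ p ^ k * x * (y ^ p ^ k)⁻¹ = x := by
      apply commute_of_coprime h3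
      rw [← pow_mul, ← hrr]
      exact h2
    rw [conj_gs hu, ← hudef] at h4
    have h5 : u ^ gs t (p ^ k) = 1 := by
      calc u ^ gs t (p ^ k) = (u ^ gs t (p ^ k) * x) * x⁻¹ := by group
        _ = 1 := by rw [h4]; group
    rw [← orderOf_dvd_iff_pow_eq_one, he] at h5
    obtain ⟨c, hc, h6⟩ := gs_prime_pow hp ht k
    rw [h6] at h5
    have h7 : p ^ e ∣ p ^ k := by
      apply Nat.Coprime.dvd_of_dvd_mul_right _ h5
      exact Nat.Coprime.pow_left e ((Nat.Prime.coprime_iff_not_dvd hp).2 hc)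
    have h8 := Nat.le_of_dvd (pow_pos hp.pos k) h7
    have h9 : p ^ k ≤ r := by
      rw [hrr]
      apply Nat.le_mul_of_pos_right
      apply Nat.pos_of_ne_zero
      rintro rfl
      exact hr' (dvd_zero p)
    omega
  -- injectivity
  let F : Fin (p ^ e) → Fin (p ^ e) := fun n => ⟨gs t n % p ^ e, Nat.mod_lt _ hpos⟩
  have hlt : ∀ n m : ℕ, n < m → m < p ^ e → gs t n % p ^ e ≠ gs t m % p ^ e := by
    intro n m hnm hm h1
    obtain ⟨r, rfl⟩ := Nat.exists_eq_add_of_lt hnm
    have h2 : gs t (n + r + 1) = gs t n + t ^ n * gs t (r + 1) := by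
      rw [add_assoc, gs_add]
    apply hkey (r + 1) (Nat.succ_pos r) (by omega)
    have h3 : gs t n ≡ gs t n + t ^ n * gs t (r + 1) [MOD p ^ e] := by
      rw [← h2]
      exact h1
    have h4 : 0 ≡ t ^ n * gs t (r + 1) [MOD p ^ e] := by
      apply Nat.ModEq.add_left_cancel' (gs t n)
      simpa using h3
    have h5 : p ^ e ∣ t ^ n * gs t (r + 1) := (Nat.modEq_zero_iff_dvd).1 h4.symm
    exact Nat.Coprime.dvd_of_dvd_mul_left ((hcop.symm).pow_right n) h5
  have hFinj : Function.Injective F := by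
    intro n m hnm
    have h1 : gs t n % p ^ e = gs t m % p ^ e := congrArg Fin.val hnm
    rcases lt_trichotomy (n : ℕ) m with h2 | h2 | h2
    · exact absurd h1 (hlt n m h2 m.2)
    · exact Fin.ext h2
    · exact absurd h1.symm (hlt m n h2 n.2)
  have hFsurj : Function.Surjective F := Finite.injective_iff_surjective.1 hFinj
  rw [← mem_powers_iff_mem_zpowers] at hz
  obtain ⟨m, rfl⟩ := hz
  obtain ⟨n, hn⟩ := hFsurj ⟨m % p ^ e, Nat.mod_lt _ hpos⟩
  have h1 : gs t n % p ^ e = m % p ^ e := congrArg Fin.val hn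
  refine ⟨n, ?_⟩
  rw [conj_gs hu, ← hudef]
  congr 1
  rw [pow_eq_pow_iff_modEq, he]
  exact h1

end orbit

/-- Regular action on the commutator subgroup. -/
def Reg (p : ℕ) (G : Type*) [Group G] : Prop :=
  ∀ g : G, ∀ w ∈ commutator G, ∃ t : ℕ, Adm p t ∧ g * w * g⁻¹ = w ^ t

section reg

variable {G : Type*} [Group G]

theorem reg_of {p : ℕ} [Fact p.Prime] [Finite G] (hG : IsPGroup p G)
    (hcyc : IsCyclic (commutator G))
    (h2 : p ≠ 2 ∨ ∀ g : G, ∀ w ∈ commutator G, ∃ v ∈ commutator G, ⁅g, w⁆ = v ^ 4) :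
    Reg p G := by
  have hp : p.Prime := Fact.out
  obtain ⟨⟨u, hu⟩, hgen⟩ := hcyc.exists_generator
  have hgen' : ∀ w ∈ commutator G, ∃ n : ℕ, u ^ n = w := by
    intro w hw
    have h3 := hgen ⟨w, hw⟩
    rw [← mem_powers_iff_mem_zpowers] at h3
    obtain ⟨n, hn⟩ := h3
    exact ⟨n, by simpa using congrArg Subtype.val hn⟩
  intro g w hw
  -- the statement for the generator
  have main : ∃ t : ℕ, Adm p t ∧ g * u * g⁻¹ = u ^ t := by
    have hmem : g * u * g⁻¹ ∈ commutator G :=
      (inferInstance : (commutator G).Normal).conj_mem u hu g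
    obtain ⟨t, ht⟩ := hgen' _ hmem
    obtain ⟨k, hk⟩ := hG g
    have hpow : ∀ n : ℕ, g ^ n * u * (g ^ n)⁻¹ = u ^ (t ^ n) := by
      intro n
      induction n with
      | zero => simp
      | succ n ih =>
        have e1 : g ^ (n + 1) * u * (g ^ (n + 1))⁻¹ = g * (g ^ n * u * (g ^ n)⁻¹) * g⁻¹ := by
          rw [pow_succ']
          group
        rw [e1, ih, ← conj_pow, ← ht, ← pow_mul, pow_succ']
    have h3 : u = u ^ (t ^ p ^ k) := by
      have := hpow (p ^ k)
      rw [hk] at this
      simpa using this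
    by_cases hu1 : u = 1
    · refine ⟨1, ⟨rfl, Or.inr rfl⟩, ?_⟩
      rw [hu1]; simp
    obtain ⟨e, he⟩ := (IsPGroup.iff_orderOf.1 hG) u
    have he0 : e ≠ 0 := by
      rintro rfl
      rw [pow_zero] at he
      exact hu1 (orderOf_eq_one_iff.1 he)
    have h4 : 1 ≡ t ^ p ^ k [MOD p ^ e] := by
      rw [← he, ← pow_eq_pow_iff_modEq, pow_one]
      exact h3
    have h5 : 1 ≡ t ^ p ^ k [MOD p] := h4.of_dvd (dvd_pow_self p he0)
    have h6 : t ≡ 1 [MOD p] := by
      rw [← ZMod.natCast_eq_natCast_iff] at h5 ⊢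
      push_cast at h5 ⊢
      rw [ZMod.pow_card_pow] at h5
      exact h5.symm
    rcases h2 with h7 | h7
    · exact ⟨t, ⟨h6, Or.inl h7⟩, ht.symm⟩
    · by_cases h8 : p = 2
      · subst h8
        by_cases h9 : e = 1
        · subst h9
          refine ⟨1, ⟨rfl, Or.inr rfl⟩, ?_⟩
          rw [← ht, pow_one]
          conv_rhs => rw [← pow_one u]
          rw [pow_eq_pow_iff_modEq, he, pow_one]
          exact h6
        · obtain ⟨v, hv, h10⟩ := h7 g u hu
          obtain ⟨s, rfl⟩ := hgen' v hv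
          have h11 : u ^ t = u ^ (4 * s + 1) := by
            have e1 : u ^ t = ⁅g, u⁆ * u := by
              rw [ht, commutatorElement_def]
              group
            rw [e1, h10, ← pow_mul, ← pow_succ, mul_comm s 4]
          rw [pow_eq_pow_iff_modEq, he] at h11
          have h12 : 4 ∣ 2 ^ e := by
            have : (2 : ℕ) ^ 2 ∣ 2 ^ e := pow_dvd_pow 2 (by omega)
            simpa using this
          have h13 : t ≡ 4 * s + 1 [MOD 4] := h11.of_dvd h12
          refine ⟨t, ⟨h6, Or.inr ?_⟩, ht.symm⟩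
          refine h13.trans ?_
          change (4 * s + 1) % 4 = 1 % 4
          omega
      · exact ⟨t, ⟨h6, Or.inl h8⟩, ht.symm⟩
  obtain ⟨t, ht, h3⟩ := main
  obtain ⟨n, rfl⟩ := hgen' w hw
  refine ⟨t, ht, ?_⟩
  rw [← conj_pow, h3, ← pow_mul, ← pow_mul, mul_comm]

/-- A commutator generating the cyclic commutator subgroup. -/
theorem exists_comm_gen {p : ℕ} [Fact p.Prime] [Finite G] (hG : IsPGroup p G)
    (hcyc : IsCyclic (commutator G)) :
    ∃ x y : G, ∀ w ∈ commutator G, w ∈ zpowers ⁅y, x⁆ := by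
  have hq : IsPGroup p (commutator G) := hG.to_subgroup _
  have hcyc' : IsCyclic (commutator G ⧸ (⊥ : Subgroup (commutator G))) :=
    isCyclic_of_surjective (QuotientGroup.mk' _) (QuotientGroup.mk'_surjective _)
  have hcl : closure ((↑) ⁻¹' commutatorSet G : Set (commutator G)) = ⊤ := by
    apply Subgroup.map_injective (commutator G).subtype_injective
    rw [MonoidHom.map_closure, ← MonoidHom.range_eq_map, Subgroup.range_subtype]
    have h1 : ((commutator G).subtype : commutator G → G) '' ((↑) ⁻¹' commutatorSet G)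
        = commutatorSet G := by
      ext w
      constructor
      · rintro ⟨v, hv, rfl⟩
        exact hv
      · intro hw
        have h2 : w ∈ commutator G := by
          rw [commutator_eq_closure]
          exact subset_closure hw
        exact ⟨⟨w, h2⟩, hw, rfl⟩
    rw [h1, ← commutator_eq_closure]
  rcases exists_gen hq ⊥ hcyc' _ hcl with h | ⟨s, hs, h⟩
  · refine ⟨1, 1, fun w hw => ?_⟩
    have h1 : (⟨w, hw⟩ : commutator G) ∈ (⊤ : Subgroup (commutator G)) := mem_top _
    rw [← h, mem_bot] at h1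
    have h2 : w = 1 := congrArg Subtype.val h1
    rw [h2]
    exact one_mem _
  · obtain ⟨y, x, hyx⟩ := hs
    refine ⟨x, y, fun w hw => ?_⟩
    obtain ⟨n, a, ha, h1⟩ := h ⟨w, hw⟩
    rw [mem_bot] at ha
    subst ha
    rw [mul_one] at h1
    refine ⟨n, ?_⟩
    have h2 := congrArg Subtype.val h1
    simp only at h2 ⊢
    rw [h2, hyx]
    simp

/-- The decomposition of the group by a centralizer and a cyclic group. -/
theorem dec_of_reg {p : ℕ} [Fact p.Prime] [Finite G] (hG : IsPGroup p G) (hR : Reg p G) {x y : G}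
    (h : ∀ w ∈ commutator G, w ∈ zpowers ⁅y, x⁆) (g : G) :
    ∃ n : ℕ, ∃ c : G, c * x = x * c ∧ g = y ^ n * c := by
  obtain ⟨t, ht, hu⟩ := hR y ⁅y, x⁆ (commutator_mem_commutator (mem_top y) (mem_top x))
  obtain ⟨n, hn⟩ := orb hG ht hu
    (h ⁅g, x⁆ (commutator_mem_commutator (mem_top g) (mem_top x)))
  have h1 : y ^ n * x * (y ^ n)⁻¹ = g * x * g⁻¹ := by
    rw [hn, commutatorElement_def]
    group
  refine ⟨n, (y ^ n)⁻¹ * g, ?_, by group⟩
  calc (y ^ n)⁻¹ * g * x = (y ^ n)⁻¹ * (g * x * g⁻¹) * g := by group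
    _ = (y ^ n)⁻¹ * (y ^ n * x * (y ^ n)⁻¹) * g := by rw [h1]
    _ = _ := by group

theorem Reg.subgroup {p : ℕ} (hR : Reg p G) (K : Subgroup G) : Reg p K := by
  intro g w hw
  have h1 : (w : G) ∈ commutator G := by
    have h2 : (commutator K).map K.subtype ≤ commutator G := by
      rw [_root_.commutator_def, _root_.commutator_def, map_commutator]
      exact commutator_mono le_top le_top
    exact h2 ⟨w, hw, rfl⟩
  obtain ⟨t, ht, h⟩ := hR g w h1
  refine ⟨t, ht, Subtype.ext ?_⟩
  simpa using h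

theorem cyc_subgroup (hcyc : IsCyclic (commutator G)) (K : Subgroup G) :
    IsCyclic (commutator K) := by
  have h2 : (commutator K).map K.subtype ≤ commutator G := by
    rw [_root_.commutator_def, _root_.commutator_def, map_commutator]
    exact commutator_mono le_top le_top
  let f : commutator K →* commutator G :=
    { toFun := fun w => ⟨((w : K) : G), h2 ⟨w, w.2, rfl⟩⟩
      map_one' := rfl
      map_mul' := fun a b => rfl }
  apply isCyclic_of_injective f
  intro a b hab
  have h3 := congrArg Subtype.val hab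
  exact Subtype.ext (Subtype.ext h3)

end reg

universe u

theorem attains_of_cyclic_aux {p : ℕ} [Fact p.Prime] (n : ℕ) : ∀ (G : Type u) [Group G] [Finite G],
    Nat.card G ≤ n → IsPGroup p G → IsCyclic (commutator G) → Reg p G → Attains G := by
  induction n with
  | zero =>
    intro G _ _ hn
    have := Nat.card_pos (α := G)
    omega
  | succ n ih =>
    intro G _ _ hn hG hcyc hR
    obtain ⟨x, y, hxy⟩ := exists_comm_gen hG hcyc
    have hyx : ∀ w ∈ commutator G, w ∈ zpowers ⁅x, y⁆ := by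
      intro w hw
      have := hxy w hw
      rwa [← commutatorElement_inv, zpowers_inv] at this
    by_cases h1 : ⁅y, x⁆ = 1
    · -- abelian
      apply attains_of_comm
      intro a b
      have h2 := hxy ⁅a, b⁆ (commutator_mem_commutator (mem_top a) (mem_top b))
      rw [h1, zpowers_one_eq_bot, mem_bot, commutatorElement_eq_one_iff_mul_comm] at h2
      exact h2
    have hd1 := dec_of_reg hG hR hxy
    have hd2 := dec_of_reg hG hR hyx
    let H : Subgroup G := closure {x, y}
    let K : Subgroup G := centralizer {x, y}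
    have hxH : x ∈ H := subset_closure (Or.inl rfl)
    have hyH : y ∈ H := subset_closure (Or.inr rfl)
    have hKmem : ∀ k, k ∈ K ↔ k * x = x * k ∧ k * y = y * k := by
      intro k
      rw [mem_centralizer_iff]
      constructor
      · intro h
        exact ⟨(h x (Or.inl rfl)).symm, (h y (Or.inr rfl)).symm⟩
      · rintro ⟨h2, h3⟩ _ (rfl | rfl)
        · exact h2.symm
        · exact h3.symm
    have hcomm : ∀ h ∈ H, ∀ k ∈ K, h * k = k * h := by
      intro h hh k hk
      have h2 : H ≤ centralizer {k} := by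
        rw [closure_le]
        rintro _ (rfl | rfl)
        · rw [SetLike.mem_coe, mem_centralizer_iff]
          rintro _ rfl
          exact ((hKmem _).1 hk).1
        · rw [SetLike.mem_coe, mem_centralizer_iff]
          rintro _ rfl
          exact ((hKmem _).1 hk).2
      exact ((mem_centralizer_iff.1 (h2 hh)) k rfl).symm
    have hsup : H ⊔ K = ⊤ := by
      rw [eq_top_iff]
      intro g _
      obtain ⟨n, c, hc, rfl⟩ := hd1 g
      obtain ⟨m, c', hc', h2⟩ := hd2 c
      apply mul_mem (mem_sup_left (pow_mem hyH n))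
      rw [h2]
      apply mul_mem (mem_sup_left (pow_mem hxH m))
      apply mem_sup_right
      rw [hKmem]
      refine ⟨?_, hc'⟩
      have h3 : c' = (x ^ m)⁻¹ * c := by rw [h2]; group
      have h4 : Commute x (x ^ m)⁻¹ := (Commute.refl x).pow_right m |>.inv_right
      rw [h3, mul_assoc, hc, ← mul_assoc, ← mul_assoc, h4.eq]
    have hKlt : Nat.card K ≤ n := by
      have h2 : K ≠ ⊤ := by
        intro h3
        apply h1
        rw [commutatorElement_eq_one_iff_mul_comm]
        have h4 : y ∈ K := by rw [h3]; exact mem_top y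
        exact ((hKmem y).1 h4).1
      have h3 : Nat.card K < Nat.card G := by
        rcases lt_or_eq_of_le (Subgroup.card_le_card_group K) with h4 | h4
        · exact h4
        · exact absurd (Subgroup.eq_top_of_card_eq K h4) h2
      omega
    have hK : Attains K := ih K hKlt (hG.to_subgroup K) (cyc_subgroup hcyc K) (hR.subgroup K)
    have hH : Attains H := by
      apply attains_of_two (⟨x, hxH⟩ : H) ⟨y, hyH⟩
      · have h2 : closure {(⟨x, hxH⟩ : H), ⟨y, hyH⟩} = ⊤ := by
          apply Subgroup.map_injective H.subtype_injective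
          rw [MonoidHom.map_closure, ← MonoidHom.range_eq_map, Subgroup.range_subtype,
            Set.image_pair]
          rfl
        rw [h2, top_sup_eq]
      · intro g
        obtain ⟨n, c, hc, h2⟩ := hd1 (g : G)⁻¹
        have h3 : (g : G) = c⁻¹ * (y ^ n)⁻¹ := by
          rw [← mul_inv_rev, ← h2, inv_inv]
        have hcH : c⁻¹ ∈ H := by
          have : c⁻¹ = (g : G) * y ^ n := by rw [h3]; group
          rw [this]
          exact mul_mem g.2 (pow_mem hyH n)
        have h5 : Commute c x := hc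
        have h6 : Commute (y ^ n) y := (Commute.refl y).pow_left n
        refine ⟨⟨c⁻¹, hcH⟩, ⟨(y ^ n)⁻¹, inv_mem (pow_mem hyH n)⟩, ?_, ?_, ?_⟩
        · apply Subtype.ext
          exact h5.inv_left.eq
        · apply Subtype.ext
          exact h6.inv_left.eq
        · apply Subtype.ext
          exact h3
    exact attains_central H K hcomm hsup hH hK

/-- Finite p-groups with cyclic commutator subgroup. -/
theorem attains_of_cyclic {p : ℕ} [Fact p.Prime] {G : Type u} [Group G] [Finite G]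
    (hG : IsPGroup p G) (hcyc : IsCyclic (commutator G))
    (h2 : p ≠ 2 ∨ ∀ g : G, ∀ w ∈ commutator G, ∃ v ∈ commutator G, ⁅g, w⁆ = v ^ 4) :
    Attains G :=
  attains_of_cyclic_aux _ G le_rfl hG hcyc (reg_of hG hcyc h2)

end Pool.Agent.H24.PG
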