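import Pool.Agent.H24.PG.CycDer

namespace Pool.Agent.H24.PG

open Subgroup
open scoped commutatorElement

variable {G : Type*} [Group G]

/-- the action on an element of a cyclic commutator subgroup is by a power map -/
theorem conj_eq_pow [Finite G] (hcyc : IsCyclic (commutator G)) (g : G) {w : G}
    (hw : w ∈ commutator G) : ∃ t : ℕ, g * w * g⁻¹ = w ^ t := by
  obtain ⟨⟨u, hu⟩, hgen⟩ := hcyc.exists_generator
  have hgen' : ∀ w ∈ commutator G, ∃ n : ℕ, u ^ n = w := by
    intro w hw
    have h3 := hgen ⟨w, hw⟩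
    rw [← mem_powers_iff_mem_zpowers] at h3
    obtain ⟨n, hn⟩ := h3
    exact ⟨n, by simpa using congrArg Subtype.val hn⟩
  have hmem : g * u * g⁻¹ ∈ commutator G :=
    (inferInstance : (commutator G).Normal).conj_mem u hu g
  obtain ⟨t, ht⟩ := hgen' _ hmem
  obtain ⟨n, rfl⟩ := hgen' w hw
  refine ⟨t, ?_⟩
  rw [← conj_pow, ← ht, ← pow_mul, ← pow_mul, mul_comm]

theorem gen_of_two [Finite G] (hcyc : IsCyclic (commutator G)) {u v : G}
    (huv : closure {u, v} ⊔ center G = ⊤) : ∀ w ∈ commutator G, w ∈ zpowers ⁅v, u⁆ := by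
  have hw : ⁅v, u⁆ ∈ commutator G := commutator_mem_commutator (mem_top v) (mem_top u)
  let N : Subgroup G := zpowers ⁅v, u⁆
  have hN : N.Normal := by
    refine ⟨?_⟩
    rintro _ ⟨k, rfl⟩ g
    obtain ⟨t, ht⟩ := conj_eq_pow hcyc g hw
    simp only
    rw [← conj_zpow, ht]
    exact zpow_mem (pow_mem (mem_zpowers _) t) k
  let f : G →* G ⧸ N := QuotientGroup.mk' N
  have hcomm : f v * f u = f u * f v := by
    rw [← commutatorElement_eq_one_iff_mul_comm, ← map_commutatorElement]
    exact (QuotientGroup.eq_one_iff _).2 (mem_zpowers _)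
  have hcen : ∀ z ∈ center G, ∀ g : G, f g * f z = f z * f g := by
    intro z hz g
    rw [← map_mul, ← map_mul, mem_center_iff.1 hz g]
  have h1 : ∀ g : G, f g * f u = f u * f g ∧ f g * f v = f v * f g := by
    have h2 : closure {u, v} ⊔ center G ≤ (centralizer {f u, f v}).comap f := by
      apply sup_le
      · rw [closure_le]
        rintro _ (rfl | rfl)
        · change f _ ∈ centralizer {f _, f v}
          rw [mem_centralizer_iff]
          rintro _ (rfl | rfl)
          · rfl
          · exact hcomm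
        · change f _ ∈ centralizer {f u, f _}
          rw [mem_centralizer_iff]
          rintro _ (rfl | rfl)
          · exact hcomm.symm
          · rfl
      · intro z hz
        change f z ∈ centralizer {f u, f v}
        rw [mem_centralizer_iff]
        rintro _ (rfl | rfl)
        · exact hcen z hz u
        · exact hcen z hz v
    intro g
    have h3 : f g ∈ centralizer {f u, f v} := h2 (by rw [huv]; exact mem_top g)
    rw [mem_centralizer_iff] at h3
    exact ⟨(h3 _ (Or.inl rfl)).symm, (h3 _ (Or.inr rfl)).symm⟩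
  have h4 : closure {u, v} ⊔ center G ≤ (center (G ⧸ N)).comap f := by
    apply sup_le
    · rw [closure_le]
      rintro _ (rfl | rfl)
      · change f _ ∈ center _
        rw [mem_center_iff]
        intro y
        obtain ⟨g, rfl⟩ := QuotientGroup.mk'_surjective N y
        exact (h1 g).1
      · change f _ ∈ center _
        rw [mem_center_iff]
        intro y
        obtain ⟨g, rfl⟩ := QuotientGroup.mk'_surjective N y
        exact (h1 g).2
    · intro z hz
      change f z ∈ center _
      rw [mem_center_iff]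
      intro y
      obtain ⟨g, rfl⟩ := QuotientGroup.mk'_surjective N y
      exact hcen z hz g
  have h5 : commutator G ≤ N := by
    rw [_root_.commutator_def, commutator_le]
    intro a _ b _
    have h6 : f b ∈ center (G ⧸ N) := h4 (by rw [huv]; exact mem_top b)
    have h7 := mem_center_iff.1 h6 (f a)
    rw [← commutatorElement_eq_one_iff_mul_comm, ← map_commutatorElement] at h7
    exact (QuotientGroup.eq_one_iff _).1 h7
  exact fun w hw => h5 hw

/-- The two generator step. -/
theorem attains_of_adm {p : ℕ} [Fact p.Prime] [Finite G] (hG : IsPGroup p G)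
    (hcyc : IsCyclic (commutator G)) {x y : G} (hxy : closure {x, y} ⊔ center G = ⊤) {t : ℕ}
    (ht : Adm p t) (hu : y * ⁅y, x⁆ * y⁻¹ = ⁅y, x⁆ ^ t) : Attains G := by
  have hgen := gen_of_two hcyc hxy
  apply attains_of_two x y hxy
  intro g
  obtain ⟨n, hn⟩ := orb hG ht hu
    (hgen ⁅g⁻¹, x⁆ (commutator_mem_commutator (mem_top _) (mem_top x)))
  have h1 : y ^ n * x * (y ^ n)⁻¹ = g⁻¹ * x * g := by
    rw [hn, commutatorElement_def]
    group
  refine ⟨g * y ^ n, (y ^ n)⁻¹, ?_, ?_, by group⟩
  · calc g * y ^ n * x = g * (y ^ n * x * (y ^ n)⁻¹) * y ^ n := by group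
      _ = g * (g⁻¹ * x * g) * y ^ n := by rw [h1]
      _ = _ := by group
  · exact (((Commute.refl y).pow_left n).inv_left).eq

/-- Two-generator (modulo the centre) two-groups with cyclic commutator subgroup. -/
theorem attains_of_cyclic_two [Finite G] (hG : IsPGroup 2 G)
    (hcyc : IsCyclic (commutator G)) {u v : G} (huv : closure {u, v} ⊔ center G = ⊤) :
    Attains G := by
  have : Fact (Nat.Prime 2) := ⟨Nat.prime_two⟩
  have hw : ⁅v, u⁆ ∈ commutator G := commutator_mem_commutator (mem_top v) (mem_top u)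
  obtain ⟨tv, hv⟩ := conj_eq_pow hcyc v hw
  obtain ⟨tu, hu⟩ := conj_eq_pow hcyc u hw
  by_cases h1 : ⁅v, u⁆ = 1
  · apply attains_of_adm hG hcyc huv (t := 1) ⟨rfl, Or.inr rfl⟩
    rw [h1]; simp
  obtain ⟨e, he⟩ := (IsPGroup.iff_orderOf.1 hG) ⁅v, u⁆
  have he0 : e ≠ 0 := by
    rintro rfl
    rw [pow_zero] at he
    exact h1 (orderOf_eq_one_iff.1 he)
  have hodd : ∀ g : G, ∀ t : ℕ, g * ⁅v, u⁆ * g⁻¹ = ⁅v, u⁆ ^ t → t % 2 = 1 := by
    intro g t ht
    by_contra hcon
    have h2 : 2 ∣ t := by omega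
    obtain ⟨s, rfl⟩ := h2
    obtain ⟨e', rfl⟩ := Nat.exists_eq_succ_of_ne_zero he0
    have h3 : ⁅v, u⁆ ^ (2 ^ e') = 1 := by
      have h4 : (g * ⁅v, u⁆ * g⁻¹) ^ (2 ^ e') = 1 := by
        rw [ht, ← pow_mul]
        have : 2 * s * 2 ^ e' = 2 ^ (e' + 1) * s := by ring
        rw [this, pow_mul, ← Nat.succ_eq_add_one, ← he, pow_orderOf_eq_one, one_pow]
      rw [conj_pow] at h4
      calc ⁅v, u⁆ ^ (2 ^ e') = g⁻¹ * (g * ⁅v, u⁆ ^ (2 ^ e') * g⁻¹) * g := by group
        _ = 1 := by rw [h4]; group
    rw [← orderOf_dvd_iff_pow_eq_one, he] at h3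
    have h4 := Nat.le_of_dvd (by positivity) h3
    have h5 : 2 ^ e' < 2 ^ (e' + 1) := Nat.pow_lt_pow_right (by norm_num) (by omega)
    exact absurd h4 (not_le.2 h5)
  have hv2 := hodd v tv hv
  have hu2 := hodd u tu hu
  have hadm : ∀ t : ℕ, t % 4 = 1 → Adm 2 t := by
    intro t ht
    refine ⟨?_, Or.inr ht⟩
    change t % 2 = 1 % 2
    omega
  by_cases h3 : tv % 4 = 1
  · exact attains_of_adm hG hcyc huv (hadm _ h3) hv
  by_cases h4 : tu % 4 = 1
  · have huv' : closure {v, u} ⊔ center G = ⊤ := by rw [Set.pair_comm]; exact huv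
    apply attains_of_adm hG hcyc huv' (hadm _ h4)
    have h5 : ⁅u, v⁆ = ⁅v, u⁆⁻¹ := (commutatorElement_inv v u).symm
    rw [h5, inv_pow, ← hu, mul_inv_rev, mul_inv_rev, inv_inv, mul_assoc]
  · -- both act as 3 mod 4
    have hc : ⁅v * u, u⁆ = ⁅v, u⁆ := by
      simp only [commutatorElement_def]
      group
    have huv' : closure {u, v * u} ⊔ center G = ⊤ := by
      rw [eq_top_iff, ← huv]
      apply sup_le _ le_sup_right
      rw [closure_le]
      have h6 : u ∈ closure {u, v * u} := subset_closure (Or.inl rfl)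
      have h7 : v * u ∈ closure {u, v * u} := subset_closure (Or.inr rfl)
      rintro g (h | h)
      · rw [h]
        exact mem_sup_left h6
      · rw [h]
        apply mem_sup_left
        have h9 : v * u * u⁻¹ ∈ closure {u, v * u} := mul_mem h7 (inv_mem h6)
        have h10 : v * u * u⁻¹ = v := by group
        rwa [h10] at h9
    have h8 : (tu * tv) % 4 = 1 := by
      have h9 : tu % 4 = 3 := by omega
      have h10 : tv % 4 = 3 := by omega
      rw [Nat.mul_mod, h9, h10]
    apply attains_of_adm hG hcyc huv' (hadm _ h8)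
    rw [hc]
    have h11 : v * u * ⁅v, u⁆ * (v * u)⁻¹ = v * (u * ⁅v, u⁆ * u⁻¹) * v⁻¹ := by group
    rw [h11, hu, ← conj_pow, hv, ← pow_mul, mul_comm]

end Pool.Agent.H24.PG
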