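import Mathlib

namespace Pool.Agent.H24.PG

/-- The class-preserving automorphisms of a group. -/
def Autc (G : Type*) [Group G] : Subgroup (MulAut G) where
  carrier := {α | ∀ x : G, IsConj x (α x)}
  mul_mem' := by
    intro α β hα hβ x
    exact (hβ x).trans (hα (β x))
  one_mem' := fun x => IsConj.refl x
  inv_mem' := by
    intro α hα x
    have h := hα (α⁻¹ x)
    rw [MulAut.apply_inv_self] at h
    exact h.symm

/-- The family x is a minimal generating set (no entry can be omitted). -/
def IsMinGen {G : Type*} [Group G] {ι : Type*} (x : ι → G) : Prop :=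
  Subgroup.closure (Set.range x) = ⊤ ∧
    ∀ i, Subgroup.closure (x '' {j | j ≠ i}) ≠ ⊤

/-- Equality in the class-size product bound, for the family x. -/
def Equality {G : Type*} [Group G] {ι : Type*} [Fintype ι] (x : ι → G) : Prop :=
  Nat.card (Autc G) = ∏ i, Nat.card {y : G // IsConj (x i) y}

/-- G possesses a minimal generating set for which equality holds. -/
def Attains (G : Type*) [Group G] : Prop :=
  ∃ (d : ℕ) (x : Fin d → G), IsMinGen x ∧ Equality x

/-- Every choice of conjugates of the x i extends to a class-preserving automorphism. -/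
def Extends {G : Type*} [Group G] {ι : Type*} (x : ι → G) : Prop :=
  ∀ y : ι → G, (∀ i, IsConj (x i) (y i)) → ∃ α ∈ Autc G, ∀ i, α (x i) = y i

variable {G : Type*} [Group G] {ι : Type*}

theorem aut_ext {x : ι → G} (hx : Subgroup.closure (Set.range x) = ⊤)
    {α β : MulAut G} (h : ∀ i, α (x i) = β (x i)) : α = β := by
  have h1 : (α.toMonoidHom : G →* G) = β.toMonoidHom := by
    apply MonoidHom.eq_of_eqOn_dense hx
    rintro _ ⟨i, rfl⟩
    exact h i
  ext g
  exact DFunLike.congr_fun h1 g

/-- evaluation of a class-preserving automorphism on the family -/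
def ev (x : ι → G) (α : Autc G) : ∀ i, {y : G // IsConj (x i) y} :=
  fun i => ⟨(α : MulAut G) (x i), α.2 (x i)⟩

theorem ev_inj {x : ι → G} (hx : Subgroup.closure (Set.range x) = ⊤) :
    Function.Injective (ev x) := by
  intro α β h
  apply Subtype.ext
  apply aut_ext hx
  intro i
  exact congrArg Subtype.val (congrFun h i)

theorem equality_iff [Finite G] [Fintype ι] {x : ι → G}
    (hx : Subgroup.closure (Set.range x) = ⊤) : Equality x ↔ Extends x := by
  classical
  have : Finite (MulAut G) := Finite.of_injective (fun α : MulAut G => (α : G → G))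
    (fun α β h => MulEquiv.ext (congrFun h))
  have hcard : Nat.card (∀ i, {y : G // IsConj (x i) y}) = ∏ i, Nat.card {y : G // IsConj (x i) y} :=
    Nat.card_pi
  unfold Equality
  rw [← hcard]
  constructor
  · intro h y hy
    have hs : Function.Surjective (ev x) :=
      ((Nat.bijective_iff_injective_and_card (ev x)).2 ⟨ev_inj hx, h⟩).2
    obtain ⟨α, hα⟩ := hs (fun i => ⟨y i, hy i⟩)
    refine ⟨α, α.2, fun i => ?_⟩
    exact congrArg Subtype.val (congrFun hα i)
  · intro h
    apply Nat.card_eq_of_bijective (ev x)
    refine ⟨ev_inj hx, fun y => ?_⟩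
    obtain ⟨α, hα, hy⟩ := h (fun i => (y i).1) (fun i => (y i).2)
    refine ⟨⟨α, hα⟩, ?_⟩
    funext i
    exact Subtype.ext (hy i)

/-- A subfamily of an extendable family is extendable. -/
theorem Extends.comp {κ : Type*} {x : ι → G} (h : Extends x) (f : κ → ι)
    (hf : Function.Injective f) : Extends (x ∘ f) := by
  classical
  intro y hy
  obtain ⟨α, hα, h1⟩ := h (fun i => if hi : ∃ k, f k = i then y hi.choose else x i) (by
    intro i
    by_cases hi : ∃ k, f k = i
    · simp only [hi, dif_pos]
      have := hy hi.choose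
      simp only [Function.comp, hi.choose_spec] at this
      exact this
    · simp only [hi, dif_neg, not_false_iff]
      exact IsConj.refl _)
  refine ⟨α, hα, fun k => ?_⟩
  have := h1 (f k)
  have hk : ∃ k', f k' = f k := ⟨k, rfl⟩
  simp only [hk, dif_pos] at this
  rw [Function.comp, this]
  congr 1
  exact hf hk.choose_spec

/-- A finite generating family which is extendable contains a minimal one. -/
theorem attains_of_extends [Finite G] [Finite ι] {x : ι → G}
    (hx : Subgroup.closure (Set.range x) = ⊤) (h : Extends x) : Attains G := by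
  classical
  have : Fintype ι := Fintype.ofFinite ι
  -- a generating subset of indices of minimal size
  let P : ℕ → Prop := fun n => ∃ s : Finset ι, s.card = n ∧ Subgroup.closure (x '' (s : Set ι)) = ⊤
  have hP : ∃ n, P n := ⟨_, Finset.univ, rfl, by rw [Finset.coe_univ, Set.image_univ]; exact hx⟩
  obtain ⟨s, hs, hcl⟩ := Nat.find_spec hP
  have hmin : ∀ t : Finset ι, t.card < s.card → Subgroup.closure (x '' (t : Set ι)) ≠ ⊤ := by
    intro t ht h2
    rw [hs] at ht
    exact Nat.find_min hP ht ⟨t, rfl, h2⟩
  let e := s.equivFin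
  let f : Fin s.card → ι := fun j => (e.symm j : ι)
  have hf : Function.Injective f := Subtype.val_injective.comp e.symm.injective
  have hrange : Set.range f = (s : Set ι) := by
    ext i
    constructor
    · rintro ⟨j, rfl⟩
      exact (e.symm j).2
    · intro hi
      exact ⟨e ⟨i, hi⟩, by simp [f]⟩
  have hgen : Subgroup.closure (Set.range (x ∘ f)) = ⊤ := by
    rw [Set.range_comp, hrange]
    exact hcl
  refine ⟨s.card, x ∘ f, ⟨hgen, ?_⟩, (equality_iff hgen).2 (h.comp f hf)⟩
  intro i h2
  apply hmin (s.erase (f i))
  · apply Finset.card_erase_lt_of_mem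
    exact (e.symm i).2
  · rw [← h2]
    congr 1
    ext g
    constructor
    · rintro ⟨k, hk, rfl⟩
      simp only [Finset.coe_erase, Set.mem_sdiff, Finset.mem_coe, Set.mem_singleton_iff] at hk
      refine ⟨e ⟨k, hk.1⟩, ?_, ?_⟩
      · intro h3
        apply hk.2
        rw [← h3]
        simp [f]
      · simp [f]
    · rintro ⟨j, hj, rfl⟩
      refine ⟨f j, ?_, rfl⟩
      simp only [Finset.coe_erase, Set.mem_sdiff, Finset.mem_coe, Set.mem_singleton_iff]
      exact ⟨(e.symm j).2, fun h3 => hj (hf h3)⟩

theorem attains_iff [Finite G] : Attains G ↔ ∃ (d : ℕ) (x : Fin d → G),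
    Subgroup.closure (Set.range x) = ⊤ ∧ Extends x := by
  constructor
  · rintro ⟨d, x, hm, he⟩
    exact ⟨d, x, hm.1, (equality_iff hm.1).1 he⟩
  · rintro ⟨d, x, hx, he⟩
    exact attains_of_extends hx he

end Pool.Agent.H24.PG
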