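import Pool.Agent.H24.PG.Defs

namespace Pool.Agent.H24.PG

variable {G : Type*} [Group G]

/-- A class-preserving endomorphism of a finite group is an automorphism. -/
theorem exists_aut [Finite G] (f : G →* G) (hf : ∀ x, IsConj x (f x)) :
    ∃ α ∈ Autc G, ∀ x, α x = f x := by
  have hinj : Function.Injective f := by
    rw [injective_iff_map_eq_one]
    intro a ha
    have := hf a
    rw [ha] at this
    exact isConj_one_left.1 this
  have hbij : Function.Bijective f := Finite.injective_iff_bijective.1 hinj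
  refine ⟨MulEquiv.ofBijective f hbij, ?_, fun x => rfl⟩
  intro x
  exact hf x

theorem conj_mem_Autc (g : G) : MulAut.conj g ∈ Autc G := by
  intro x
  rw [isConj_iff]
  exact ⟨g, rfl⟩

/-- Two generators modulo the centre whose centralizers multiply to the group. -/
theorem attains_of_two [Finite G] (s a : G)
    (hcl : Subgroup.closure {s, a} ⊔ Subgroup.center G = ⊤)
    (hC : ∀ g : G, ∃ c c' : G, c * s = s * c ∧ c' * a = a * c' ∧ g = c * c') : Attains G := by
  let x : Option (Option (Subgroup.center G)) → G := fun o => match o with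
    | none => s
    | some none => a
    | some (some z) => (z : G)
  have hx : Subgroup.closure (Set.range x) = ⊤ := by
    rw [eq_top_iff, ← hcl]
    apply sup_le
    · apply Subgroup.closure_mono
      rintro g (rfl | rfl)
      · exact ⟨none, rfl⟩
      · exact ⟨some none, rfl⟩
    · intro z hz
      exact Subgroup.subset_closure ⟨some (some ⟨z, hz⟩), rfl⟩
  apply attains_of_extends hx
  intro y hy
  obtain ⟨g0, h0⟩ := isConj_iff.1 (hy none)
  obtain ⟨g1, h1⟩ := isConj_iff.1 (hy (some none))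
  obtain ⟨c, c', hc, hc', h⟩ := hC (g0⁻¹ * g1)
  refine ⟨MulAut.conj (g0 * c), conj_mem_Autc _, ?_⟩
  intro o
  rcases o with _ | _ | z
  · rw [MulAut.conj_apply, ← h0]
    change g0 * c * s * (g0 * c)⁻¹ = g0 * s * g0⁻¹
    have : c * s * c⁻¹ = s := by rw [hc]; group
    calc g0 * c * s * (g0 * c)⁻¹ = g0 * (c * s * c⁻¹) * g0⁻¹ := by group
      _ = _ := by rw [this]
  · rw [MulAut.conj_apply, ← h1]
    change g0 * c * a * (g0 * c)⁻¹ = g1 * a * g1⁻¹
    have h2 : g0 * c = g1 * c'⁻¹ := by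
      have : g1 = g0 * (c * c') := by rw [← h]; group
      rw [this]; group
    have : c'⁻¹ * a * c' = a := by
      rw [mul_assoc, ← hc']; group
    rw [h2]
    calc g1 * c'⁻¹ * a * (g1 * c'⁻¹)⁻¹ = g1 * (c'⁻¹ * a * c') * g1⁻¹ := by group
      _ = _ := by rw [this]
  · rw [MulAut.conj_apply]
    obtain ⟨g, hg⟩ := isConj_iff.1 (hy (some (some z)))
    rw [← hg]
    change g0 * c * (z : G) * (g0 * c)⁻¹ = g * (z : G) * g⁻¹
    have hz := Subgroup.mem_center_iff.1 z.2
    rw [hz (g0 * c), hz g]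
    group

theorem attains_of_comm [Finite G] (h : ∀ a b : G, a * b = b * a) : Attains G := by
  apply attains_of_two (1 : G) 1
  · rw [eq_top_iff]
    intro g _
    apply Subgroup.mem_sup_right
    rw [Subgroup.mem_center_iff]
    intro k
    exact h k g
  · intro g
    exact ⟨g, 1, by simp, by simp, by simp⟩

/-- transport along an isomorphism -/
theorem Attains.of_mulEquiv {H : Type*} [Group H] [Finite G] [Finite H] (e : G ≃* H)
    (h : Attains G) : Attains H := by
  obtain ⟨d, x, hx, hE⟩ := attains_iff.1 h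
  rw [attains_iff]
  refine ⟨d, fun i => e (x i), ?_, ?_⟩
  · have : Set.range (fun i => e (x i)) = (e.toMonoidHom : G → H) '' (Set.range x) := by
      rw [← Set.range_comp]
      rfl
    rw [this, ← MonoidHom.map_closure, hx, ← MonoidHom.range_eq_map, MonoidHom.range_eq_top]
    exact e.surjective
  · intro y hy
    obtain ⟨α, hα, h1⟩ := hE (fun i => e.symm (y i)) (by
      intro i
      obtain ⟨g, hg⟩ := isConj_iff.1 (hy i)
      rw [isConj_iff]
      refine ⟨e.symm g, ?_⟩
      rw [← hg]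
      simp)
    refine ⟨(e.symm.trans α).trans e, ?_, ?_⟩
    · intro z
      obtain ⟨g, hg⟩ := isConj_iff.1 (hα (e.symm z))
      rw [isConj_iff]
      refine ⟨e g, ?_⟩
      change _ = e (α (e.symm z))
      rw [← hg]
      simp
    · intro i
      change e (α (e.symm (e (x i)))) = y i
      rw [e.symm_apply_apply, h1, e.apply_symm_apply]

/-- Attaining the bound is inherited by central products. -/
theorem attains_central [Finite G] (H K : Subgroup G)
    (hcomm : ∀ h ∈ H, ∀ k ∈ K, h * k = k * h) (hsup : H ⊔ K = ⊤)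
    (hH : Attains H) (hK : Attains K) : Attains G := by
  obtain ⟨d, x, hx, hxE⟩ := attains_iff.1 hH
  obtain ⟨e, y, hy, hyE⟩ := attains_iff.1 hK
  -- the multiplication map
  let μ : H × K →* G := MonoidHom.noncommCoprod H.subtype K.subtype (by
    intro h k
    exact hcomm h h.2 k k.2)
  have hμ : ∀ h : H, ∀ k : K, μ (h, k) = (h : G) * (k : G) := fun h k => rfl
  have hsurj : Function.Surjective μ := by
    rw [← MonoidHom.range_eq_top, eq_top_iff, ← hsup]
    apply sup_le
    · intro h hh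
      exact ⟨(⟨h, hh⟩, 1), by rw [hμ]; simp⟩
    · intro k hk
      exact ⟨(1, ⟨k, hk⟩), by rw [hμ]; simp⟩
  -- decomposition
  have hdec : ∀ g : G, ∃ h : H, ∃ k : K, g = (h : G) * (k : G) := by
    intro g
    obtain ⟨⟨h, k⟩, hg⟩ := hsurj g
    exact ⟨h, k, by rw [← hg, hμ]⟩
  have hconjH : ∀ h : H, ∀ z : G, IsConj (h : G) z → ∃ h' : H, (h' : G) = z ∧ IsConj h h' := by
    intro h z hz
    obtain ⟨g, hg⟩ := isConj_iff.1 hz
    obtain ⟨a, b, rfl⟩ := hdec g
    have hab : (a : G) * b * h * ((a : G) * b)⁻¹ = (a : G) * h * (a : G)⁻¹ := by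
      have := hcomm h h.2 b b.2
      calc (a : G) * b * h * ((a : G) * b)⁻¹ = a * (b * h) * (b : G)⁻¹ * (a : G)⁻¹ := by group
        _ = a * (h * b) * (b : G)⁻¹ * (a : G)⁻¹ := by rw [this]
        _ = _ := by group
    refine ⟨a * h * a⁻¹, ?_, isConj_iff.2 ⟨a, rfl⟩⟩
    rw [← hg, hab]
    simp
  have hconjK : ∀ k : K, ∀ z : G, IsConj (k : G) z → ∃ k' : K, (k' : G) = z ∧ IsConj k k' := by
    intro k z hz
    obtain ⟨g, hg⟩ := isConj_iff.1 hz
    obtain ⟨a, b, rfl⟩ := hdec g
    have hab : (a : G) * b * k * ((a : G) * b)⁻¹ = (b : G) * k * (b : G)⁻¹ := by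
      have h1 := hcomm a a.2 _ (K.mul_mem (K.mul_mem b.2 k.2) (K.inv_mem b.2))
      calc (a : G) * b * k * ((a : G) * b)⁻¹ = (a * ((b : G) * k * (b : G)⁻¹)) * (a : G)⁻¹ := by group
        _ = ((b : G) * k * (b : G)⁻¹ * a) * (a : G)⁻¹ := by rw [h1]
        _ = _ := by group
    refine ⟨b * k * b⁻¹, ?_, isConj_iff.2 ⟨b, rfl⟩⟩
    rw [← hg, hab]
    simp
  let w : Fin d ⊕ Fin e → G := Sum.elim (fun i => (x i : G)) (fun j => (y j : G))
  have hw : Subgroup.closure (Set.range w) = ⊤ := by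
    rw [eq_top_iff, ← hsup]
    apply sup_le
    · have h1 : H = (Subgroup.closure (Set.range x)).map H.subtype := by
        rw [hx, ← MonoidHom.range_eq_map, Subgroup.range_subtype]
      rw [h1, MonoidHom.map_closure]
      apply Subgroup.closure_mono
      rintro _ ⟨_, ⟨i, rfl⟩, rfl⟩
      exact ⟨Sum.inl i, rfl⟩
    · have h1 : K = (Subgroup.closure (Set.range y)).map K.subtype := by
        rw [hy, ← MonoidHom.range_eq_map, Subgroup.range_subtype]
      rw [h1, MonoidHom.map_closure]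
      apply Subgroup.closure_mono
      rintro _ ⟨_, ⟨i, rfl⟩, rfl⟩
      exact ⟨Sum.inr i, rfl⟩
  apply attains_of_extends hw
  intro z hz
  choose z1 hz1 hz1' using fun i => hconjH (x i) (z (Sum.inl i)) (hz (Sum.inl i))
  choose z2 hz2 hz2' using fun j => hconjK (y j) (z (Sum.inr j)) (hz (Sum.inr j))
  obtain ⟨α, hα, hα1⟩ := hxE z1 hz1'
  obtain ⟨β, hβ, hβ1⟩ := hyE z2 hz2'
  let ν : H × K →* G := μ.comp (MonoidHom.prodMap α.toMonoidHom β.toMonoidHom)
  have hν : ∀ h : H, ∀ k : K, ν (h, k) = (α h : G) * (β k : G) := fun h k => rfl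
  have hker : μ.ker ≤ ν.ker := by
    rintro ⟨h, k⟩ hhk
    rw [MonoidHom.mem_ker, hμ] at hhk
    rw [MonoidHom.mem_ker, hν]
    have hh : (h : G) = (k : G)⁻¹ := eq_inv_of_mul_eq_one_left hhk
    -- h is central in H, k is central in K
    have h1 : α h = h := by
      obtain ⟨c, hc⟩ := isConj_iff.1 (hα h)
      rw [← hc]
      apply Subtype.ext
      change (c : G) * h * (c : G)⁻¹ = h
      rw [hh, hcomm c c.2 _ (K.inv_mem k.2)]
      group
    have h2 : β k = k := by
      obtain ⟨c, hc⟩ := isConj_iff.1 (hβ k)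
      rw [← hc]
      apply Subtype.ext
      change (c : G) * k * (c : G)⁻¹ = k
      have hk : (k : G) = (h : G)⁻¹ := by rw [hh]; group
      rw [hk, ← hcomm _ (H.inv_mem h.2) c c.2]
      group
    rw [h1, h2, hhk]
  let f : G →* G := MonoidHom.liftOfSurjective μ hsurj ⟨ν, hker⟩
  have hf : ∀ p : H × K, f (μ p) = ν p := by
    intro p
    exact MonoidHom.liftOfRightInverse_comp_apply _ _ _ ⟨ν, hker⟩ p
  obtain ⟨γ, hγ, hγ1⟩ := exists_aut f (by
    intro g
    obtain ⟨⟨h, k⟩, rfl⟩ := hsurj g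
    rw [hf, hν, hμ]
    obtain ⟨a, ha⟩ := isConj_iff.1 (hα h)
    obtain ⟨b, hb⟩ := isConj_iff.1 (hβ k)
    rw [isConj_iff]
    refine ⟨(a : G) * b, ?_⟩
    rw [← ha, ← hb]
    change (a : G) * b * (h * k) * ((a : G) * b)⁻¹ = ((a : G) * h * (a : G)⁻¹) * ((b : G) * k * (b : G)⁻¹)
    have e1 := hcomm h h.2 b b.2
    have e2 := hcomm _ (H.inv_mem a.2) _ (K.mul_mem (K.mul_mem b.2 k.2) (K.inv_mem b.2))
    calc (a : G) * b * (h * k) * ((a : G) * b)⁻¹ = a * (b * h) * k * (b : G)⁻¹ * (a : G)⁻¹ := by group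
      _ = a * (h * b) * k * (b : G)⁻¹ * (a : G)⁻¹ := by rw [e1]
      _ = a * h * ((b * k * (b : G)⁻¹) * (a : G)⁻¹) := by group
      _ = a * h * ((a : G)⁻¹ * (b * k * (b : G)⁻¹)) := by rw [e2]
      _ = _ := by group)
  refine ⟨γ, hγ, ?_⟩
  rintro (i | j)
  · rw [hγ1]
    change f (x i : G) = _
    have : (x i : G) = μ (x i, 1) := by rw [hμ]; simp
    rw [this, hf, hν, hα1, map_one, hz1]
    simp
  · rw [hγ1]
    change f (y j : G) = _
    have : (y j : G) = μ (1, y j) := by rw [hμ]; simp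
    rw [this, hf, hν, hβ1, map_one, hz2]
    simp

end Pool.Agent.H24.PG
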