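import Pool.Agent.H24.PG.Quot

namespace Pool.Agent.H24.PG

open Subgroup
open scoped commutatorElement

/-- Two groups are isoclinic: there are isomorphisms of the central quotients and of the
commutator subgroups which are compatible with the commutator maps. -/
def Isoclinic (G H : Type*) [Group G] [Group H] : Prop :=
  ∃ (φ : G ⧸ center G ≃* H ⧸ center H) (ψ : commutator G ≃* commutator H),
    ∀ (a b : G) (c d : H), φ (a : G ⧸ center G) = (c : H ⧸ center H) →
      φ (b : G ⧸ center G) = (d : H ⧸ center H) →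
      ∀ w : commutator G, (w : G) = ⁅a, b⁆ → (ψ w : H) = ⁅c, d⁆

theorem closure_comm (G : Type*) [Group G] :
    closure ((↑) ⁻¹' commutatorSet G : Set (commutator G)) = ⊤ := by
  apply Subgroup.map_injective (commutator G).subtype_injective
  rw [MonoidHom.map_closure, ← MonoidHom.range_eq_map, Subgroup.range_subtype]
  have h1 : ((commutator G).subtype : commutator G → G) '' ((↑) ⁻¹' commutatorSet G)
      = commutatorSet G := by
    ext w
    constructor
    · rintro ⟨v, hv, rfl⟩
      exact hv
    · intro hw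
      have h2 : w ∈ commutator G := by
        rw [commutator_eq_closure]
        exact subset_closure hw
      exact ⟨⟨w, h2⟩, hw, rfl⟩
  rw [h1, ← commutator_eq_closure]

variable {G H : Type*} [Group G] [Group H]

theorem attains_of_isoclinic [Finite G] [Finite H] (hGH : Isoclinic G H) (h : Attains G) :
    Attains H := by
  obtain ⟨φ, ψ, hc⟩ := hGH
  obtain ⟨d, x, hx, hE⟩ := attains_iff.1 h
  have hmem : ∀ a b : G, ⁅a, b⁆ ∈ commutator G := fun a b =>
    commutator_mem_commutator (mem_top a) (mem_top b)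
  -- compatibility
  have hcomp : ∀ c : commutator G, φ ((c : G) : G ⧸ center G) = ((ψ c : H) : H ⧸ center H) := by
    let f1 : commutator G →* H ⧸ center H :=
      (φ.toMonoidHom.comp (QuotientGroup.mk' (center G))).comp (commutator G).subtype
    let f2 : commutator G →* H ⧸ center H :=
      ((QuotientGroup.mk' (center H)).comp (commutator H).subtype).comp ψ.toMonoidHom
    have hf : f1 = f2 := by
      apply MonoidHom.eq_of_eqOn_dense (closure_comm G)
      rintro ⟨w, hw⟩ ⟨a, b, hab⟩
      obtain ⟨a', ha'⟩ := QuotientGroup.mk'_surjective (center H) (φ (a : G ⧸ center G))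
      obtain ⟨b', hb'⟩ := QuotientGroup.mk'_surjective (center H) (φ (b : G ⧸ center G))
      have h1 := hc a b a' b' ha'.symm hb'.symm ⟨w, hw⟩ hab.symm
      change φ ((w : G) : G ⧸ center G) = ((ψ ⟨w, hw⟩ : H) : H ⧸ center H)
      simp only at hab
      rw [h1, ← hab]
      change φ ((QuotientGroup.mk' (center G)) ⁅a, b⁆) = (QuotientGroup.mk' (center H)) ⁅a', b'⁆
      rw [map_commutatorElement, map_commutatorElement, map_commutatorElement, ha', hb']
      rfl
    intro c
    exact DFunLike.congr_fun hf c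
  have hsurj : ∀ y : H, ∃ g : G, φ (g : G ⧸ center G) = (y : H ⧸ center H) := by
    intro y
    obtain ⟨q, hq⟩ := φ.surjective (y : H ⧸ center H)
    obtain ⟨g, rfl⟩ := QuotientGroup.mk'_surjective (center G) q
    exact ⟨g, hq⟩
  have hsurj' : ∀ g : G, ∃ y : H, φ (g : G ⧸ center G) = (y : H ⧸ center H) := by
    intro g
    obtain ⟨y, hy⟩ := QuotientGroup.mk'_surjective (center H) (φ (g : G ⧸ center G))
    exact ⟨y, hy.symm⟩
  -- transport of class-preserving automorphisms
  have htrans : ∀ α ∈ Autc G, ∃ β ∈ Autc H, ∀ (g k : G) (y l : H),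
      φ (g : G ⧸ center G) = (y : H ⧸ center H) → φ (k : G ⧸ center G) = (l : H ⧸ center H) →
      α g = k * g * k⁻¹ → β y = l * y * l⁻¹ := by
    intro α hα
    have hδm : ∀ g : G, α g * g⁻¹ ∈ commutator G := by
      intro g
      obtain ⟨k, hk⟩ := isConj_iff.1 (hα g)
      have := hmem k g
      rwa [commutatorElement_def, hk] at this
    let δ : G → commutator G := fun g => ⟨α g * g⁻¹, hδm g⟩
    have hfix : ∀ z ∈ center G, α z = z := by
      intro z hz
      obtain ⟨k, hk⟩ := isConj_iff.1 (hα z)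
      rw [← hk, mem_center_iff.1 hz k]
      group
    have hδind : ∀ g g' : G, φ (g : G ⧸ center G) = φ (g' : G ⧸ center G) → δ g = δ g' := by
      intro g g' h1
      have h2 := φ.injective h1
      rw [QuotientGroup.eq] at h2
      apply Subtype.ext
      change α g * g⁻¹ = α g' * g'⁻¹
      have h3 : g' = g * (g⁻¹ * g') := by group
      have h4 : α g' = α g * (g⁻¹ * g') := by
        conv_lhs => rw [h3]
        rw [map_mul, hfix _ h2]
      rw [h4]
      group
    choose lft hlft using hsurj
    let β0 : H → H := fun y => (ψ (δ (lft y)) : H) * y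
    have hβ0 : ∀ (y : H) (g : G), φ (g : G ⧸ center G) = (y : H ⧸ center H) →
        β0 y = (ψ (δ g) : H) * y := by
      intro y g hg
      change (ψ (δ (lft y)) : H) * y = _
      rw [hδind (lft y) g (by rw [hlft, hg])]
    have hδmul : ∀ (g1 g2 : G) (y1 : H), φ (g1 : G ⧸ center G) = (y1 : H ⧸ center H) →
        (ψ (δ (g1 * g2)) : H) = (ψ (δ g1) : H) * (y1 * (ψ (δ g2) : H) * y1⁻¹) := by
      intro g1 g2 y1 h1
      have h2 : δ (g1 * g2) = δ g1 * (⟨⁅g1, (δ g2 : G)⁆, hmem _ _⟩ * δ g2) := by
        apply Subtype.ext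
        change α (g1 * g2) * (g1 * g2)⁻¹ = α g1 * g1⁻¹ * (⁅g1, α g2 * g2⁻¹⁆ * (α g2 * g2⁻¹))
        rw [map_mul, commutatorElement_def]
        group
      rw [h2, map_mul, map_mul]
      have h3 := hc g1 (δ g2 : G) y1 (ψ (δ g2) : H) h1 (hcomp _) ⟨⁅g1, (δ g2 : G)⁆, hmem _ _⟩ rfl
      change (ψ (δ g1) : H) * ((ψ _ : H) * (ψ (δ g2) : H)) = _
      rw [h3, commutatorElement_def]
      group
    let β : H →* H :=
      { toFun := β0
        map_one' := by
          rw [hβ0 1 1 (by simp)]
          have : δ 1 = 1 := Subtype.ext (by change α 1 * 1⁻¹ = 1; simp)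
          rw [this]
          simp
        map_mul' := by
          intro y1 y2
          have h1 : φ ((lft y1 * lft y2 : G) : G ⧸ center G) = ((y1 * y2 : H) : H ⧸ center H) := by
            rw [QuotientGroup.mk_mul, map_mul, hlft, hlft, QuotientGroup.mk_mul]
          rw [hβ0 _ _ h1, hδmul _ _ _ (hlft y1)]
          change _ = (ψ (δ (lft y1)) : H) * y1 * ((ψ (δ (lft y2)) : H) * y2)
          group }
    have hβ : ∀ (g k : G) (y l : H), φ (g : G ⧸ center G) = (y : H ⧸ center H) →
        φ (k : G ⧸ center G) = (l : H ⧸ center H) → α g = k * g * k⁻¹ →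
        β y = l * y * l⁻¹ := by
      intro g k y l h1 h2 h3
      change β0 y = _
      rw [hβ0 y g h1]
      have h4 := hc k g l y h2 h1 (δ g) (by
        change α g * g⁻¹ = _
        rw [h3, commutatorElement_def])
      rw [h4, commutatorElement_def]
      group
    obtain ⟨γ, hγ, hγ1⟩ := exists_aut β (by
      intro y
      obtain ⟨k, hk⟩ := isConj_iff.1 (hα (lft y))
      obtain ⟨l, hl⟩ := hsurj' k
      rw [isConj_iff]
      exact ⟨l, (hβ (lft y) k y l (hlft y) hl hk.symm).symm⟩)
    refine ⟨γ, hγ, ?_⟩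
    intro g k y l h1 h2 h3
    rw [hγ1]
    exact hβ g k y l h1 h2 h3
  -- the family in H
  choose y hy using fun i => hsurj' (x i)
  let w : Fin d ⊕ center H → H := Sum.elim y (fun z => (z : H))
  have hw : closure (Set.range w) = ⊤ := by
    rw [eq_top_iff]
    intro t _
    obtain ⟨g, hg⟩ := hsurj t
    -- the subgroup of elements of G whose image is represented in the closure
    let K : Subgroup G := ((closure (Set.range w)).map (QuotientGroup.mk' (center H))).comap
      (φ.toMonoidHom.comp (QuotientGroup.mk' (center G)))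
    have hK : K = ⊤ := by
      rw [eq_top_iff, ← hx, closure_le]
      rintro _ ⟨i, rfl⟩
      exact ⟨y i, subset_closure ⟨Sum.inl i, rfl⟩, (hy i).symm⟩
    have h1 : g ∈ K := by rw [hK]; exact mem_top g
    obtain ⟨s, hs, hs'⟩ := h1
    have h2 : (s : H ⧸ center H) = (t : H ⧸ center H) := by
      rw [← hg]
      exact hs'
    rw [QuotientGroup.eq] at h2
    have h3 : t = s * (s⁻¹ * t) := by group
    rw [h3]
    apply mul_mem hs
    exact subset_closure ⟨Sum.inr ⟨_, h2⟩, rfl⟩
  apply attains_of_extends hw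
  intro v hv
  choose l hl using fun i => isConj_iff.1 (hv i)
  choose k hk using fun i : Fin d => hsurj (l (Sum.inl i))
  obtain ⟨α, hα, h1⟩ := hE (fun i => k i * x i * (k i)⁻¹) (fun i => isConj_iff.2 ⟨k i, rfl⟩)
  obtain ⟨β, hβ, h2⟩ := htrans α hα
  refine ⟨β, hβ, ?_⟩
  rintro (i | z)
  · rw [← hl (Sum.inl i)]
    exact h2 (x i) (k i) (y i) (l (Sum.inl i)) (hy i) (hk i) (h1 i)
  · have h3 : β (z : H) = z := by
      obtain ⟨m, hm⟩ := isConj_iff.1 (hβ (z : H))
      rw [← hm, mem_center_iff.1 z.2 m]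
      group
    rw [← hl (Sum.inr z)]
    change β (z : H) = l (Sum.inr z) * (z : H) * (l (Sum.inr z))⁻¹
    rw [h3, mem_center_iff.1 z.2]
    group

theorem Isoclinic.symm (h : Isoclinic G H) : Isoclinic H G := by
  obtain ⟨φ, ψ, hc⟩ := h
  refine ⟨φ.symm, ψ.symm, ?_⟩
  intro a b c d h1 h2 w hw
  rw [MulEquiv.symm_apply_eq] at h1 h2
  have h3 := hc c d a b h1.symm h2.symm
    ⟨⁅c, d⁆, commutator_mem_commutator (mem_top c) (mem_top d)⟩ rfl
  have h4 : ψ ⟨⁅c, d⁆, commutator_mem_commutator (mem_top c) (mem_top d)⟩ = w :=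
    Subtype.ext (h3.trans hw.symm)
  rw [← h4, MulEquiv.symm_apply_apply]

end Pool.Agent.H24.PG
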