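import Pool.Agent.H24.PG.Cls2

namespace Pool.Agent.H24.PG

variable {G H : Type*} [Group G] [Group H]

open Subgroup
open scoped commutatorElement

/-- Extendability passes to homomorphic images. -/
theorem Extends.map {ι : Type*} [Finite G] (f : G →* H) (hf : Function.Surjective f) {x : ι → G}
    (h : Extends x) : Extends (fun i => f (x i)) := by
  have : Finite H := Finite.of_surjective f hf
  intro y hy
  choose c hc using fun i => isConj_iff.1 (hy i)
  choose g hg using fun i => hf (c i)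
  obtain ⟨α, hα, h1⟩ := h (fun i => g i * x i * (g i)⁻¹) (fun i => isConj_iff.2 ⟨g i, rfl⟩)
  have hker : f.ker ≤ (f.comp α.toMonoidHom).ker := by
    intro k hk
    rw [MonoidHom.mem_ker] at hk ⊢
    obtain ⟨b, hb⟩ := isConj_iff.1 (hα k)
    change f (α k) = 1
    rw [← hb]
    simp [hk]
  let β : H →* H := MonoidHom.liftOfSurjective f hf ⟨f.comp α.toMonoidHom, hker⟩
  have hβ : ∀ g, β (f g) = f (α g) := by
    intro g
    exact MonoidHom.liftOfRightInverse_comp_apply _ _ _ ⟨f.comp α.toMonoidHom, hker⟩ g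
  obtain ⟨γ, hγ, hγ1⟩ := exists_aut β (by
    intro z
    obtain ⟨k, rfl⟩ := hf z
    rw [hβ]
    obtain ⟨b, hb⟩ := isConj_iff.1 (hα k)
    rw [isConj_iff]
    refine ⟨f b, ?_⟩
    rw [← hb]
    simp)
  refine ⟨γ, hγ, fun i => ?_⟩
  rw [hγ1, hβ, h1, ← hc i, ← hg i]
  simp

/-- Attaining the bound passes to homomorphic images. -/
theorem Attains.of_surjective [Finite G] (f : G →* H) (hf : Function.Surjective f)
    (h : Attains G) : Attains H := by
  have : Finite H := Finite.of_surjective f hf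
  obtain ⟨d, x, hx, hE⟩ := attains_iff.1 h
  rw [attains_iff]
  refine ⟨d, fun i => f (x i), ?_, hE.map f hf⟩
  have h1 : Set.range (fun i => f (x i)) = (f : G → H) '' (Set.range x) := by
    rw [← Set.range_comp]
    rfl
  rw [h1, ← MonoidHom.map_closure, hx, ← MonoidHom.range_eq_map, MonoidHom.range_eq_top]
  exact hf

/-- Direct products. -/
theorem attains_prod_iff [Finite G] [Finite H] : Attains (G × H) ↔ Attains G ∧ Attains H := by
  constructor
  · intro h
    exact ⟨h.of_surjective (MonoidHom.fst G H) Prod.fst_surjective,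
      h.of_surjective (MonoidHom.snd G H) Prod.snd_surjective⟩
  · rintro ⟨h1, h2⟩
    apply attains_central (MonoidHom.inl G H).range (MonoidHom.inr G H).range
    · rintro _ ⟨a, rfl⟩ _ ⟨b, rfl⟩
      simp
    · rw [eq_top_iff]
      rintro ⟨a, b⟩ _
      have : ((a, b) : G × H) = MonoidHom.inl G H a * MonoidHom.inr G H b := by simp
      rw [this]
      exact mul_mem (mem_sup_left ⟨a, rfl⟩) (mem_sup_right ⟨b, rfl⟩)
    · exact h1.of_surjective (MonoidHom.inl G H).rangeRestrict
        (MonoidHom.rangeRestrict_surjective _)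
    · exact h2.of_surjective (MonoidHom.inr G H).rangeRestrict
        (MonoidHom.rangeRestrict_surjective _)

/-- A necessary condition in every finite group, modulo the third term of the lower central
series. -/
theorem crit_mod [Finite G] {d : ℕ} {x : Fin d → G} (hE : Extends x) (a : Fin d → ℤ) (j : Fin d)
    (g : G) : ∃ h : G, ⁅g, x j ^ a j⁆⁻¹ * ⁅h, wd x a⁆ ∈ ⁅commutator G, (⊤ : Subgroup G)⁆ := by
  set N : Subgroup G := ⁅commutator G, (⊤ : Subgroup G)⁆ with hN
  let f : G →* G ⧸ N := QuotientGroup.mk' N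
  have hf : Function.Surjective f := QuotientGroup.mk'_surjective N
  have hZ : Cls2 (G ⧸ N) := by
    intro a b
    obtain ⟨a, rfl⟩ := hf a
    obtain ⟨b, rfl⟩ := hf b
    rw [mem_center_iff]
    intro c
    obtain ⟨c, rfl⟩ := hf c
    rw [← map_commutatorElement, ← map_mul, ← map_mul]
    change ((c * ⁅a, b⁆ : G) : G ⧸ N) = ((⁅a, b⁆ * c : G) : G ⧸ N)
    rw [QuotientGroup.eq]
    have h1 : ⁅⁅a, b⁆, c⁆ ∈ N :=
      commutator_mem_commutator (commutator_mem_commutator (mem_top a) (mem_top b)) (mem_top c)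
    have h2 : ⁅⁅a, b⁆⁻¹, c⁻¹⁆ ∈ N := commutator_mem_commutator
      (inv_mem (commutator_mem_commutator (mem_top a) (mem_top b))) (mem_top _)
    have h3 : (c * ⁅a, b⁆)⁻¹ * (⁅a, b⁆ * c) = ⁅⁅a, b⁆⁻¹, c⁻¹⁆ := by
      rw [commutatorElement_def ⁅a, b⁆⁻¹ c⁻¹]
      group
    rw [h3]
    exact h2
  obtain ⟨h, hh⟩ := crit_of_extends hZ (hE.map f hf) a j (f g)
  obtain ⟨h, rfl⟩ := hf h
  refine ⟨h, ?_⟩
  have h4 : wd (fun i => f (x i)) a = f (wd x a) := by
    unfold wd
    rw [map_list_prod, List.map_ofFn]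
    have h5 : (f ∘ fun i => x i ^ a i) = fun i => f (x i) ^ a i := by
      funext i
      simp
    rw [h5]
  rw [h4, ← map_zpow, ← map_commutatorElement, ← map_commutatorElement] at hh
  exact QuotientGroup.eq.1 hh

end Pool.Agent.H24.PG
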